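import Pool.Agent.K7.H28.EQ.A1

/-!
# The linear algebra for isotopies of zero sets of vector valued functions
-/

set_option autoImplicit false

open Set Filter Topology Metric Function
open scoped ContDiff NNReal

noncomputable section

namespace Pool.Agent.K7.H28.TR

open Pool.Agent.K7.H28.EQ

variable {V W : Type} [NormedAddCommGroup V] [InnerProductSpace ℝ V] [FiniteDimensional ℝ V]
  [NormedAddCommGroup W] [InnerProductSpace ℝ W] [FiniteDimensional ℝ W]

/-- the derivative in the space directions -/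
def dx (F : V × ℝ → W) (q : V × ℝ) : V →L[ℝ] W :=
  (fderiv ℝ F q).comp (ContinuousLinearMap.inl ℝ V ℝ)

theorem dx_apply (F : V × ℝ → W) (q : V × ℝ) (v : V) : dx F q v = fderiv ℝ F q (v, 0) := rfl

/-- the adjoint of the derivative in the space directions -/
def ad (F : V × ℝ → W) (q : V × ℝ) : W →L[ℝ] V :=
  ∑ i, ∑ j, (inner ℝ (dx F q (stdOrthonormalBasis ℝ V i)) (stdOrthonormalBasis ℝ W j) : ℝ) •
    (innerSL ℝ (stdOrthonormalBasis ℝ W j)).smulRight (stdOrthonormalBasis ℝ V i)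

theorem ad_apply (F : V × ℝ → W) (q : V × ℝ) (w : W) :
    ad F q w = ∑ i, (inner ℝ (dx F q (stdOrthonormalBasis ℝ V i)) w : ℝ) •
      stdOrthonormalBasis ℝ V i := by
  unfold ad
  rw [ContinuousLinearMap.sum_apply]
  refine Finset.sum_congr rfl fun i _ => ?_
  rw [ContinuousLinearMap.sum_apply]
  have h1 := (stdOrthonormalBasis ℝ W).sum_inner_mul_inner
    (dx F q (stdOrthonormalBasis ℝ V i)) w
  rw [← h1, Finset.sum_smul]
  refine Finset.sum_congr rfl fun j _ => ?_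
  rw [ContinuousLinearMap.smul_apply, ContinuousLinearMap.smulRight_apply, innerSL_apply_apply,
    smul_smul]

theorem inner_ad (F : V × ℝ → W) (q : V × ℝ) (w : W) (v : V) :
    inner ℝ (ad F q w) v = (inner ℝ (dx F q v) w : ℝ) := by
  rw [ad_apply, sum_inner]
  have h1 : dx F q v = ∑ i, (inner ℝ (stdOrthonormalBasis ℝ V i) v : ℝ) •
      dx F q (stdOrthonormalBasis ℝ V i) := by
    conv_lhs => rw [← (stdOrthonormalBasis ℝ V).sum_repr' v]
    rw [map_sum]
    refine Finset.sum_congr rfl fun i _ => ?_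
    rw [map_smul]
  rw [h1, sum_inner]
  refine Finset.sum_congr rfl fun i _ => ?_
  rw [real_inner_smul_left, real_inner_smul_left]
  ring

/-- the Gram operator -/
def gr (F : V × ℝ → W) (q : V × ℝ) : W →L[ℝ] W := (dx F q).comp (ad F q)

theorem dx_smooth {F : V × ℝ → W} (hF : ContDiff ℝ ∞ F) : ContDiff ℝ ∞ (dx F) :=
  (hF.fderiv_right (m := ∞) (by simp)).clm_comp contDiff_const

theorem ad_smooth {F : V × ℝ → W} (hF : ContDiff ℝ ∞ F) : ContDiff ℝ ∞ (ad F) := by
  unfold ad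
  refine ContDiff.sum fun i _ => ContDiff.sum fun j _ => ?_
  exact (((dx_smooth hF).clm_apply contDiff_const).inner ℝ contDiff_const).smul contDiff_const

theorem gr_smooth {F : V × ℝ → W} (hF : ContDiff ℝ ∞ F) : ContDiff ℝ ∞ (gr F) :=
  (dx_smooth hF).clm_comp (ad_smooth hF)

theorem gr_unit {F : V × ℝ → W} {q : V × ℝ} (h : Surjective (dx F q)) : IsUnit (gr F q) := by
  have hinj : Injective (gr F q) := by
    rw [injective_iff_map_eq_zero]
    intro w hw
    have h1 : (inner ℝ (ad F q w) (ad F q w) : ℝ) = 0 := by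
      rw [inner_ad]
      have h2 : dx F q (ad F q w) = 0 := hw
      rw [h2, inner_zero_left]
    have h2 : ad F q w = 0 := inner_self_eq_zero.1 h1
    obtain ⟨v, hv⟩ := h w
    have h3 := inner_ad F q w v
    rw [h2, inner_zero_left, hv] at h3
    exact inner_self_eq_zero.1 h3.symm
  rw [ContinuousLinearMap.isUnit_iff_isUnit_toLinearMap, LinearMap.isUnit_iff_ker_eq_bot]
  exact LinearMap.ker_eq_bot.2 hinj

/-- a pair of an isometry of `V` and a linear isometry of `W` -/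
abbrev Pr (V W : Type) [NormedAddCommGroup V] [InnerProductSpace ℝ V] [NormedAddCommGroup W]
    [InnerProductSpace ℝ W] : Type := ((V ≃ₗᵢ[ℝ] V) × V) × (W ≃ₗᵢ[ℝ] W)

section equi

variable {F : V × ℝ → W} {γ : Pr V W}

theorem fderiv_equi (hF : ContDiff ℝ ∞ F) (hinv : ∀ q, F (act2 γ.1 q) = γ.2 (F q))
    (q w : V × ℝ) : fderiv ℝ F (act2 γ.1 q) (lin2 γ.1 w) = γ.2 (fderiv ℝ F q w) := by
  have h1 : HasFDerivAt F (fderiv ℝ F (act2 γ.1 q)) (act2 γ.1 q) :=
    ((hF.differentiable (by simp)) _).hasFDerivAt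
  have h2 := h1.comp q (act2_hasFDerivAt γ.1 q)
  have h3 : HasFDerivAt F (fderiv ℝ F q) q := ((hF.differentiable (by simp)) _).hasFDerivAt
  have h4 := (γ.2.toContinuousLinearEquiv : W →L[ℝ] W).hasFDerivAt.comp q h3
  have h5 : (F ∘ act2 γ.1) = ⇑(γ.2.toContinuousLinearEquiv : W →L[ℝ] W) ∘ F :=
    funext fun q => hinv q
  rw [h5] at h2
  have h6 := h2.unique h4
  have h7 := congrArg (fun L => L w) h6
  exact h7

theorem dx_equi (hF : ContDiff ℝ ∞ F) (hinv : ∀ q, F (act2 γ.1 q) = γ.2 (F q))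
    (q : V × ℝ) (v : V) : dx F (act2 γ.1 q) (γ.1.1 v) = γ.2 (dx F q v) := by
  have h1 := fderiv_equi hF hinv q (v, 0)
  rw [lin2_apply] at h1
  exact h1

theorem ad_equi (hF : ContDiff ℝ ∞ F) (hinv : ∀ q, F (act2 γ.1 q) = γ.2 (F q))
    (q : V × ℝ) (w : W) : ad F (act2 γ.1 q) (γ.2 w) = γ.1.1 (ad F q w) := by
  refine ext_inner_right ℝ fun v => ?_
  obtain ⟨v', rfl⟩ := γ.1.1.surjective v
  rw [inner_ad, dx_equi hF hinv, LinearIsometryEquiv.inner_map_map,
    LinearIsometryEquiv.inner_map_map, inner_ad]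

theorem gr_equi (hF : ContDiff ℝ ∞ F) (hinv : ∀ q, F (act2 γ.1 q) = γ.2 (F q))
    (q : V × ℝ) (w : W) : gr F (act2 γ.1 q) (γ.2 w) = γ.2 (gr F q w) := by
  change dx F (act2 γ.1 q) (ad F (act2 γ.1 q) (γ.2 w)) = γ.2 (dx F q (ad F q w))
  rw [ad_equi hF hinv, dx_equi hF hinv]

theorem unit_equi (hF : ContDiff ℝ ∞ F) (hinv : ∀ q, F (act2 γ.1 q) = γ.2 (F q))
    (q : V × ℝ) (h : IsUnit (gr F (act2 γ.1 q))) : IsUnit (gr F q) := by
  rw [ContinuousLinearMap.isUnit_iff_isUnit_toLinearMap, LinearMap.isUnit_iff_ker_eq_bot] at h ⊢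
  refine LinearMap.ker_eq_bot.2 ?_
  have h1 : Injective (gr F (act2 γ.1 q)) := LinearMap.ker_eq_bot.1 h
  intro w w' hw
  have h2 : gr F q w = gr F q w' := hw
  have h3 : gr F (act2 γ.1 q) (γ.2 w) = gr F (act2 γ.1 q) (γ.2 w') := by
    rw [gr_equi hF hinv, gr_equi hF hinv, h2]
  exact γ.2.injective (h1 h3)

/-- the vector which compensates `w` -/
def lift (F : V × ℝ → W) (q : V × ℝ) (w : W) : V := ad F q (Ring.inverse (gr F q) w)

theorem dx_lift {q : V × ℝ} (h : IsUnit (gr F q)) (w : W) : dx F q (lift F q w) = w := by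
  have h1 := Ring.mul_inverse_cancel (gr F q) h
  exact congrArg (fun L : W →L[ℝ] W => L w) h1

theorem lift_equi (hF : ContDiff ℝ ∞ F) (hinv : ∀ q, F (act2 γ.1 q) = γ.2 (F q))
    (q : V × ℝ) (h : IsUnit (gr F (act2 γ.1 q))) (w : W) :
    lift F (act2 γ.1 q) (γ.2 w) = γ.1.1 (lift F q w) := by
  have h0 := unit_equi hF hinv q h
  unfold lift
  have h1 : Ring.inverse (gr F (act2 γ.1 q)) (γ.2 w) = γ.2 (Ring.inverse (gr F q) w) := by
    have h2 : w = gr F q (Ring.inverse (gr F q) w) :=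
      (congrArg (fun L : W →L[ℝ] W => L w) (Ring.mul_inverse_cancel (gr F q) h0)).symm
    have h3 : γ.2 w = gr F (act2 γ.1 q) (γ.2 (Ring.inverse (gr F q) w)) := by
      rw [gr_equi hF hinv, ← h2]
    rw [h3]
    exact congrArg (fun L : W →L[ℝ] W => L (γ.2 (Ring.inverse (gr F q) w)))
      (Ring.inverse_mul_cancel (gr F (act2 γ.1 q)) h)
  rw [h1, ad_equi hF hinv]

theorem lift_zero (F : V × ℝ → W) (q : V × ℝ) : lift F q 0 = 0 := by
  unfold lift
  rw [map_zero, map_zero]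

theorem lift_smooth (hF : ContDiff ℝ ∞ F) {u : V × ℝ → W} (hu : ContDiff ℝ ∞ u) {q : V × ℝ}
    (h : IsUnit (gr F q)) : ContDiffAt ℝ ∞ (fun q => lift F q (u q)) q := by
  unfold lift
  have h1 : ContDiffAt ℝ ∞ (fun q => Ring.inverse (gr F q)) q := by
    obtain ⟨a, ha⟩ := h
    have h2 := contDiffAt_ringInverse ℝ (n := ∞) a
    rw [ha] at h2
    exact h2.comp q (gr_smooth hF).contDiffAt
  exact (ad_smooth hF).contDiffAt.clm_apply (h1.clm_apply hu.contDiffAt)

end equi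

end Pool.Agent.K7.H28.TR
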