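import Pool.Agent.K7.H28.TR.T1

/-!
# Equivariant isotopies of zero sets of vector valued functions
-/

set_option autoImplicit false

open Set Filter Topology Metric Function
open scoped ContDiff NNReal

noncomputable section

namespace Pool.Agent.K7.H28.TR

open Pool.Agent.K7.H28.EQ

variable {V W : Type} [NormedAddCommGroup V] [InnerProductSpace ℝ V] [FiniteDimensional ℝ V]
  [NormedAddCommGroup W] [InnerProductSpace ℝ W] [FiniteDimensional ℝ W]

/-- equivariant isotopy of the part of a regular zero set in a window, for functions which are constant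
in time outside the unit interval -/
theorem level_auxW (Γ : Set (Pr V W)) (F : V × ℝ → W) (hF : ContDiff ℝ ∞ F)
    (hinv : ∀ γ ∈ Γ, ∀ q, F (act2 γ.1 q) = γ.2 (F q)) (g : V → ℝ) (hg : ContDiff ℝ ∞ g)
    (hginv : ∀ γ ∈ Γ, ∀ x, g (act γ.1 x) = g x)
    (K : Set V) (hK : IsCompact K) {c : ℝ} (hc : 0 < c)
    (hwin : ∀ x, g x < 0 → ∃ γ ∈ Γ, act γ.1 x ∈ K)
    (hsep : ∀ x t, ‖F (x, t)‖ < c → c ≤ |g x|)
    (h0 : ∀ x t, t ≤ 0 → F (x, t) = F (x, 0)) (h1 : ∀ x t, 1 ≤ t → F (x, t) = F (x, 1))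
    (hreg : ∀ x t, 0 ≤ t → t ≤ 1 → g x < 0 → F (x, t) = 0 → Surjective (dx F (x, t))) :
    ∃ Φ Ψ : V → V, ContDiff ℝ ∞ Φ ∧ ContDiff ℝ ∞ Ψ ∧ (∀ x, Ψ (Φ x) = x) ∧
      (∀ x, Φ (Ψ x) = x) ∧ (∀ γ ∈ Γ, ∀ x, Φ (act γ.1 x) = act γ.1 (Φ x)) ∧
      (∀ x, 0 ≤ g x → Φ x = x) ∧
      ∀ x, (F (x, 0) = 0 ∧ g x < 0) ↔ (F (Φ x, 1) = 0 ∧ g (Φ x) < 0) := by
  -- a bound from below
  have hlow : ∃ c₁ : ℝ, 0 < c₁ ∧ c₁ ≤ c ∧ ∀ x t, 0 ≤ t → t ≤ 1 → g x < 0 → ‖F (x, t)‖ < c₁ →
      IsUnit (gr F (x, t)) := by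
    obtain ⟨Z, hZ⟩ : ∃ Z : Set (V × ℝ), Z = (K ×ˢ Icc (0 : ℝ) 1) ∩ ({q | g q.1 ≤ -c} ∩
        {q | ¬ IsUnit (gr F q)}) := ⟨_, rfl⟩
    have hZc : IsCompact Z := by
      rw [hZ]
      refine (hK.prod isCompact_Icc).inter_right (IsClosed.inter ?_ ?_)
      · exact isClosed_le (hg.continuous.comp continuous_fst) continuous_const
      · rw [← isOpen_compl_iff]
        have h2 : {q | ¬ IsUnit (gr F q)}ᶜ = gr F ⁻¹' {u | IsUnit u} := by
          ext q
          simp
        rw [h2]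
        exact Units.isOpen.preimage (gr_smooth hF).continuous
    have key : ∃ m : ℝ, 0 < m ∧ ∀ q ∈ Z, m ≤ ‖F q‖ := by
      rcases Z.eq_empty_or_nonempty with he | hne
      · exact ⟨1, one_pos, fun q hq => by rw [he] at hq; exact absurd hq (notMem_empty q)⟩
      · obtain ⟨q₀, hq₀, hmin⟩ := hZc.exists_isMinOn hne (hF.continuous.norm.continuousOn)
        refine ⟨‖F q₀‖, ?_, fun q hq => hmin hq⟩
        rw [norm_pos_iff]
        intro hz
        rw [hZ] at hq₀
        have hgn : g q₀.1 < 0 := lt_of_le_of_lt hq₀.2.1 (by linarith)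
        exact hq₀.2.2 (gr_unit (hreg q₀.1 q₀.2 hq₀.1.2.1 hq₀.1.2.2 hgn hz))
    obtain ⟨m, hm, hmZ⟩ := key
    refine ⟨min m c, lt_min hm hc, min_le_right _ _, fun x t ht0 ht1 hgx hlt => ?_⟩
    have hgc : g x ≤ -c := by
      have h2 := hsep x t (hlt.trans_le (min_le_right _ _))
      rw [abs_of_neg hgx] at h2
      linarith
    obtain ⟨γ, hγ, hx⟩ := hwin x hgx
    have h3 : IsUnit (gr F (act2 γ.1 (x, t))) := by
      by_contra hn
      have h4 : act2 γ.1 (x, t) ∈ Z := by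
        rw [hZ]
        refine ⟨⟨hx, ht0, ht1⟩, ?_, hn⟩
        change g (act γ.1 x) ≤ -c
        rw [hginv γ hγ]
        exact hgc
      have h5 := hmZ _ h4
      rw [hinv γ hγ, LinearIsometryEquiv.norm_map] at h5
      exact absurd hlt (not_lt.2 ((min_le_left _ _).trans h5))
    exact unit_equi hF (hinv γ hγ) (x, t) h3
  obtain ⟨c₁, hc₁, hc₁c, hlow⟩ := hlow
  -- the cutoff functions
  let b : ContDiffBump (0 : ℝ) := ⟨(c₁ / 3) ^ 2, (c₁ / 2) ^ 2, by positivity, by
    have : 0 < c₁ ^ 2 := by positivity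
    nlinarith⟩
  obtain ⟨α, hα⟩ : ∃ α : V × ℝ → ℝ, α = fun q => b (‖F q‖ ^ 2) := ⟨_, rfl⟩
  have hαs : ContDiff ℝ ∞ α := by
    rw [hα]
    exact b.contDiff.comp (hF.norm_sq ℝ)
  have hα0 : ∀ q, c₁ / 2 ≤ ‖F q‖ → α q = 0 := fun q hu => by
    rw [hα]
    refine b.zero_of_le_dist ?_
    rw [dist_zero_right, Real.norm_eq_abs, abs_of_nonneg (by positivity)]
    exact pow_le_pow_left₀ (by positivity) hu 2
  have hα1 : ∀ q, ‖F q‖ ≤ c₁ / 3 → α q = 1 := fun q hu => by
    rw [hα]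
    refine b.one_of_mem_closedBall ?_
    rw [mem_closedBall_zero_iff, Real.norm_eq_abs, abs_of_nonneg (by positivity)]
    exact pow_le_pow_left₀ (norm_nonneg _) hu 2
  obtain ⟨β, hβ⟩ : ∃ β : V → ℝ, β = fun x => Real.smoothTransition ((-g x - c / 2) / (c / 2)) :=
    ⟨_, rfl⟩
  have hβs : ContDiff ℝ ∞ β := by
    rw [hβ]
    exact Real.smoothTransition.contDiff.comp ((hg.neg.sub contDiff_const).div_const _)
  have hβ0 : ∀ x, -(c / 2) ≤ g x → β x = 0 := fun x hx => by
    rw [hβ]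
    refine Real.smoothTransition.zero_of_nonpos (div_nonpos_of_nonpos_of_nonneg ?_ (by positivity))
    linarith
  have hβ1 : ∀ x, g x ≤ -c → β x = 1 := fun x hx => by
    rw [hβ]
    refine Real.smoothTransition.one_of_one_le ?_
    rw [le_div_iff₀ (by positivity)]
    linarith
  obtain ⟨dt, hdt⟩ : ∃ dt : V × ℝ → W, dt = fun q => fderiv ℝ F q ((0 : V), (1 : ℝ)) := ⟨_, rfl⟩
  have hdts : ContDiff ℝ ∞ dt := by
    rw [hdt]
    exact (hF.fderiv_right (m := ∞) (by simp)).clm_apply contDiff_const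
  have hdtd : ∀ q : V × ℝ, HasDerivAt (fun t => F (q.1, t)) (dt q) q.2 := by
    intro q
    have e1 : HasDerivAt (fun t : ℝ => (q.1, t)) ((0 : V), (1 : ℝ)) q.2 :=
      (hasDerivAt_const _ _).prodMk (hasDerivAt_id _)
    have e2 : HasFDerivAt F (fderiv ℝ F q) (q.1, q.2) :=
      ((hF.differentiable (by simp)) q).hasFDerivAt
    rw [hdt]
    exact e2.comp_hasDerivAt q.2 e1
  -- the time derivative vanishes outside of the unit interval
  have hdt0 : ∀ q : V × ℝ, q.2 < 0 ∨ 1 < q.2 → dt q = 0 := by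
    intro q hq
    have e1 : (fun t => F (q.1, t)) =ᶠ[𝓝 q.2] fun _ => F q := by
      rcases hq with hq | hq
      · filter_upwards [isOpen_Iio.mem_nhds hq] with t ht
        rw [h0 q.1 t (le_of_lt ht), ← h0 q.1 q.2 hq.le]
      · filter_upwards [isOpen_Ioi.mem_nhds hq] with t ht
        rw [h1 q.1 t (le_of_lt ht), ← h1 q.1 q.2 hq.le]
    exact ((hdtd q).congr_of_eventuallyEq e1.symm).unique (hasDerivAt_const _ _)
  obtain ⟨u, hud⟩ : ∃ u : V × ℝ → W, u = fun q => (-(α q * β q.1)) • dt q := ⟨_, rfl⟩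
  have hus : ContDiff ℝ ∞ u := by
    rw [hud]
    exact (hαs.mul (hβs.comp contDiff_fst)).neg.smul hdts
  -- local structure of `u`
  have hloc : ∀ q : V × ℝ, ((0 ≤ q.2 ∧ q.2 ≤ 1) ∧ g q.1 < 0 ∧ ‖F q‖ < c₁) ∨
      ∀ᶠ y in 𝓝 q, u y = 0 := by
    intro q
    by_cases ht : 0 ≤ q.2 ∧ q.2 ≤ 1
    · rcases lt_or_ge ‖F q‖ c₁ with hlt | hge
      · rcases lt_or_ge (g q.1) 0 with hg0 | hg0
        · exact Or.inl ⟨ht, hg0, hlt⟩
        · right
          have h2 : ∀ᶠ y in 𝓝 q, -(c / 2) < g (y : V × ℝ).1 :=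
            (hg.continuous.comp continuous_fst).continuousAt.eventually_const_lt (by
              change -(c / 2) < g q.1
              linarith)
          filter_upwards [h2] with y hy
          rw [hud]
          simp only [hβ0 _ hy.le, mul_zero, neg_zero, zero_smul]
      · right
        have h2 : ∀ᶠ y in 𝓝 q, c₁ / 2 < ‖F y‖ :=
          hF.continuous.norm.continuousAt.eventually_const_lt (by linarith)
        filter_upwards [h2] with y hy
        rw [hud]
        simp only [hα0 _ hy.le, zero_mul, neg_zero, zero_smul]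
    · right
      have ht' : q.2 < 0 ∨ 1 < q.2 := by
        by_contra hn
        push Not at hn
        exact ht hn
      have h2 : ∀ᶠ y in 𝓝 q, y.2 < 0 ∨ 1 < y.2 := by
        rcases ht' with ht' | ht'
        · filter_upwards [continuous_snd.continuousAt.eventually_lt_const ht'] with y hy
          exact Or.inl hy
        · filter_upwards [continuous_snd.continuousAt.eventually_const_lt ht'] with y hy
          exact Or.inr hy
      filter_upwards [h2] with y hy
      rw [hud]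
      simp only [hdt0 y hy, smul_zero]
  have huinv : ∀ γ ∈ Γ, ∀ q, u (act2 γ.1 q) = γ.2 (u q) := by
    intro γ hγ q
    have e1 := fderiv_equi hF (hinv γ hγ) q ((0 : V), (1 : ℝ))
    rw [lin2_apply, map_zero] at e1
    have e2 : dt (act2 γ.1 q) = γ.2 (dt q) := by rw [hdt]; exact e1
    have e3 : α (act2 γ.1 q) = α q := by
      rw [hα]
      simp only
      rw [hinv γ hγ, LinearIsometryEquiv.norm_map]
    have e4 : β (act2 γ.1 q).1 = β q.1 := by
      rw [hβ]
      simp only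
      rw [show (act2 γ.1 q).1 = act γ.1 q.1 from rfl, hginv γ hγ]
    rw [hud]
    simp only
    rw [e2, e3, e4, map_smul]
  obtain ⟨X₀, hWd⟩ : ∃ X₀ : V × ℝ → V, X₀ = fun q => lift F q (u q) := ⟨_, rfl⟩
  have hW : ContDiff ℝ ∞ X₀ := by
    rw [contDiff_iff_contDiffAt]
    intro q
    rcases hloc q with ⟨⟨ht0, ht1⟩, hg0, hlt⟩ | h2
    · rw [hWd]
      exact lift_smooth hF hus (hlow q.1 q.2 ht0 ht1 hg0 hlt)
    · have e1 : X₀ =ᶠ[𝓝 q] fun _ => 0 := by
        filter_upwards [h2] with y hy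
        rw [hWd]
        simp only [hy, lift_zero]
      exact contDiffAt_const.congr_of_eventuallyEq e1
  have hWinv : ∀ γ ∈ Γ, ∀ q, X₀ (act2 γ.1 q) = γ.1.1 (X₀ q) := by
    intro γ hγ q
    rw [hWd]
    simp only
    rw [huinv γ hγ]
    rcases hloc (act2 γ.1 q) with ⟨⟨ht0, ht1⟩, hg0, hlt⟩ | h2
    · exact lift_equi hF (hinv γ hγ) q (hlow _ _ ht0 ht1 hg0 hlt) _
    · have e1 := h2.self_of_nhds
      rw [huinv γ hγ] at e1
      have e2 : u q = 0 := by
        have := congrArg γ.2.symm e1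
        simpa using this
      rw [e2, map_zero, lift_zero, lift_zero, map_zero]
  -- the derivative of the vector field is bounded
  obtain ⟨C, hC⟩ := (hK.prod (isCompact_Icc (a := (0 : ℝ)) (b := 1))).exists_bound_of_continuousOn
    (hW.continuous_fderiv (by simp)).continuousOn
  have hC0 : ∀ q, ‖fderiv ℝ X₀ q‖ ≤ max C 0 := by
    intro q
    rcases hloc q with ⟨⟨ht0, ht1⟩, hg0, hlt⟩ | h2
    · obtain ⟨γ, hγ, hx⟩ := hwin q.1 hg0
      have e1 : HasFDerivAt X₀ (fderiv ℝ X₀ (act2 γ.1 q)) (act2 γ.1 q) :=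
        ((hW.differentiable (by simp)) _).hasFDerivAt
      have e2 := e1.comp q (act2_hasFDerivAt γ.1 q)
      have e3 : HasFDerivAt X₀ (fderiv ℝ X₀ q) q := ((hW.differentiable (by simp)) _).hasFDerivAt
      have e4 := (γ.1.1.toContinuousLinearEquiv : V →L[ℝ] V).hasFDerivAt.comp q e3
      have e5 : (X₀ ∘ act2 γ.1) = ⇑(γ.1.1.toContinuousLinearEquiv : V →L[ℝ] V) ∘ X₀ :=
        funext fun q => hWinv γ hγ q
      rw [e5] at e2
      have e6 := e4.unique e2
      refine ContinuousLinearMap.opNorm_le_bound _ (le_max_right _ _) fun w => ?_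
      have e7 := congrArg (fun L => ‖L w‖) e6
      simp only [ContinuousLinearMap.comp_apply] at e7
      have e8 : ‖(γ.1.1.toContinuousLinearEquiv : V →L[ℝ] V) (fderiv ℝ X₀ q w)‖ =
          ‖fderiv ℝ X₀ q w‖ := γ.1.1.norm_map _
      rw [e8] at e7
      rw [e7]
      have e9 := (fderiv ℝ X₀ (act2 γ.1 q)).le_opNorm (lin2 γ.1 w)
      rw [lin2_norm] at e9
      refine e9.trans (mul_le_mul_of_nonneg_right ?_ (norm_nonneg _))
      exact (hC (act2 γ.1 q) ⟨hx, ht0, ht1⟩).trans (le_max_left _ _)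
    · have e1 : X₀ =ᶠ[𝓝 q] fun _ => 0 := by
        filter_upwards [h2] with y hy
        rw [hWd]
        simp only [hy, lift_zero]
      have e2 : HasFDerivAt X₀ (0 : V × ℝ →L[ℝ] V) q :=
        (hasFDerivAt_const (0 : V) q).congr_of_eventuallyEq e1
      refine ContinuousLinearMap.opNorm_le_bound _ (le_max_right _ _) fun w => ?_
      rw [e2.fderiv]
      have e3 : ‖(0 : V × ℝ →L[ℝ] V) w‖ = 0 := norm_eq_zero.2 rfl
      rw [e3]
      exact mul_nonneg (le_max_right _ _) (norm_nonneg _)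
  have hWL : LipschitzWith (Real.toNNReal (max C 0)) X₀ :=
    lipschitzWith_of_nnnorm_fderiv_le (hW.differentiable (by simp)) fun q => by
      rw [← NNReal.coe_le_coe, coe_nnnorm, Real.coe_toNNReal _ (le_max_right _ _)]
      exact hC0 q
  obtain ⟨L, hL⟩ : ∃ L : ℝ≥0, L = Real.toNNReal (max C 0) := ⟨_, rfl⟩
  rw [← hL] at hWL
  obtain ⟨X, hXd⟩ : ∃ X : V × ℝ → V × ℝ, X = fun q => (X₀ q, 1) := ⟨_, rfl⟩
  have hX : ContDiff ℝ ∞ X := by
    rw [hXd]
    exact hW.prodMk contDiff_const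
  have hXL : LipschitzWith L X := by
    rw [hXd]
    refine LipschitzWith.of_dist_le_mul fun p q => ?_
    rw [Prod.dist_eq, dist_self]
    exact max_le (hWL.dist_le_mul p q) (by positivity)
  obtain ⟨f, hf⟩ := Pool.Agent.TH622.exists_flow hX hXL
  have hfs : ContDiff ℝ ∞ (fun p : ℝ × (V × ℝ) => f p.1 p.2) := by
    rw [contDiff_infty]
    intro k
    have h1 := Pool.Agent.GR.Flow.contDiff_flow (X := ⟨X, hX.continuous⟩) (m := k + 1)
      (Nat.succ_ne_zero k) (hX.of_le (by exact_mod_cast le_top)) hXL hf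
    exact h1.of_le (by exact_mod_cast Nat.le_succ k)
  -- the second component
  have hsnd : ∀ (q : V × ℝ) (t : ℝ), (f t q).2 = q.2 + t := by
    intro q t
    have h1 : ∀ s, HasDerivAt (fun s => (f s q).2 - s) 0 s := by
      intro s
      have h2 := (hf.deriv q s)
      have h3 : HasDerivAt (fun s => (f s q).2) (X (f s q)).2 s := by
        have := (ContinuousLinearMap.snd ℝ V ℝ).hasFDerivAt.comp_hasDerivAt s h2
        exact this
      have h4 := h3.sub (hasDerivAt_id s)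
      rw [hXd] at h4
      exact h4.congr_deriv (by simp)
    have h5 : (f t q).2 - t = (f 0 q).2 - 0 :=
      is_const_of_deriv_eq_zero (fun s => (h1 s).differentiableAt) (fun s => (h1 s).deriv) t 0
    rw [hf.zero] at h5
    linarith
  have hpair : ∀ (q : V × ℝ) (t : ℝ), f t q = ((f t q).1, q.2 + t) := fun q t =>
    Prod.ext rfl (hsnd q t)
  have huniq : ∀ (x : V) (k : ℝ → V), k 0 = x → (∀ t, HasDerivAt k (X₀ (k t, t)) t) →
      ∀ t, (f t (x, 0)).1 = k t := by
    intro x k hk0 hk t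
    have h1 : (fun t : ℝ => f t (x, (0 : ℝ))) = fun t => (k t, t) := by
      refine ODE_solution_unique_univ (v := fun _ => X) (s := fun _ => univ) (K := L) (t₀ := 0)
        (fun t => hXL.lipschitzOnWith) (fun t => ⟨hf.deriv _ t, trivial⟩) (fun t => ⟨?_, trivial⟩) ?_
      · rw [hXd]
        exact (hk t).prodMk (hasDerivAt_id t)
      · rw [hf.zero, hk0]
    have h2 := congrFun h1 t
    rw [h2]
  refine ⟨fun x => (f 1 (x, 0)).1, fun x => (f (-1) (x, 1)).1, ?_, ?_, ?_, ?_, ?_, ?_, ?_⟩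
  · have h1 : ContDiff ℝ ∞ fun x : V => ((1 : ℝ), (x, (0 : ℝ))) := by fun_prop
    exact contDiff_fst.comp (hfs.comp h1)
  · have h1 : ContDiff ℝ ∞ fun x : V => ((-1 : ℝ), (x, (1 : ℝ))) := by fun_prop
    exact contDiff_fst.comp (hfs.comp h1)
  · intro x
    change (f (-1) ((f 1 (x, 0)).1, 1)).1 = x
    have h1 : ((f 1 (x, 0)).1, (1 : ℝ)) = f 1 (x, 0) := by
      have := hpair (x, 0) 1
      simp only [zero_add] at this
      exact this.symm
    rw [h1, ← hf.add hXL, neg_add_cancel, hf.zero]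
  · intro x
    change (f 1 ((f (-1) (x, 1)).1, 0)).1 = x
    have h1 : ((f (-1) (x, 1)).1, (0 : ℝ)) = f (-1) (x, 1) := by
      have := hpair (x, 1) (-1)
      simp only [add_neg_cancel] at this
      exact this.symm
    rw [h1, ← hf.add hXL, add_neg_cancel, hf.zero]
  · intro γ hγ x
    change (f 1 (act γ.1 x, 0)).1 = act γ.1 (f 1 (x, 0)).1
    refine huniq (act γ.1 x) (fun t => act γ.1 (f t (x, 0)).1) (by simp only [hf.zero])
      (fun t => ?_) 1
    have h2 : HasDerivAt (fun t => (f t (x, 0)).1) (X₀ ((f t (x, 0)).1, t)) t := by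
      have h3 := (ContinuousLinearMap.fst ℝ V ℝ).hasFDerivAt.comp_hasDerivAt t (hf.deriv (x, 0) t)
      have h4 : X (f t (x, 0)) = (X₀ ((f t (x, 0)).1, t), 1) := by
        rw [hXd]
        have := hpair (x, 0) t
        rw [zero_add] at this
        simp only
        rw [← this]
      rw [h4] at h3
      exact h3
    have h5 := (act_hasFDerivAt γ.1 (f t (x, 0)).1).comp_hasDerivAt t h2
    have h6 := hWinv γ hγ ((f t (x, 0)).1, t)
    have h7 : act2 γ.1 ((f t (x, 0)).1, t) = (act γ.1 (f t (x, 0)).1, t) := rfl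
    rw [h7] at h6
    rw [h6]
    exact h5
  · intro x hx
    change (f 1 (x, 0)).1 = x
    refine huniq x (fun _ => x) rfl (fun t => ?_) 1
    have h2 : u (x, t) = 0 := by
      rcases hloc (x, t) with ⟨_, hg0, hlt⟩ | h2
      · exact absurd hg0 (not_lt.2 hx)
      · exact h2.self_of_nhds
    have h3 : X₀ (x, t) = 0 := by
      rw [hWd]
      simp only [h2, lift_zero]
    rw [h3]
    exact hasDerivAt_const t x
  · -- the zero set
    intro x
    obtain ⟨a, had⟩ : ∃ a : ℝ → W, a = fun t => F (f t (x, 0)) := ⟨_, rfl⟩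
    obtain ⟨d, hdd⟩ : ∃ d : ℝ → ℝ, d = fun t => g (f t (x, 0)).1 := ⟨_, rfl⟩
    have hder : ∀ t, HasDerivAt a (fderiv ℝ F (f t (x, 0)) (X (f t (x, 0)))) t := by
      intro t
      rw [had]
      have h1 : HasFDerivAt F (fderiv ℝ F (f t (x, 0))) (f t (x, 0)) :=
        ((hF.differentiable (by simp)) _).hasFDerivAt
      exact h1.comp_hasDerivAt t (hf.deriv (x, 0) t)
    have hac : Continuous a := continuous_iff_continuousAt.2 fun t => (hder t).continuousAt
    have hfc : Continuous fun s : ℝ => f s (x, (0 : ℝ)) := hf.continuous _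
    have hdc : Continuous d := by
      rw [hdd]
      exact hg.continuous.comp (continuous_fst.comp hfc)
    have hsepd : ∀ t, ‖a t‖ < c → c ≤ |d t| := by
      intro t ht
      rw [had] at ht
      rw [hdd]
      exact hsep (f t (x, 0)).1 (f t (x, 0)).2 ht
    have hX0 : ∀ q : V × ℝ, ‖F q‖ ≤ c₁ / 3 → g q.1 ≤ -c → fderiv ℝ F q (X q) = 0 := by
      intro q hq hgq
      have h1 : X q = (X₀ q, 0) + (0, 1) := by rw [hXd]; simp
      have h2 : fderiv ℝ F q ((0 : V), (1 : ℝ)) = dt q := by rw [hdt]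
      rw [h1, map_add, h2, ← dx_apply]
      by_cases ht : 0 ≤ q.2 ∧ q.2 ≤ 1
      · have hs := hlow q.1 q.2 ht.1 ht.2 (by linarith) (by
          change ‖F q‖ < c₁
          linarith)
        rw [hWd]
        simp only
        rw [dx_lift hs, hud]
        simp only
        rw [hα1 _ hq, hβ1 _ hgq, one_mul, neg_smul, one_smul, neg_add_cancel]
      · have ht' : q.2 < 0 ∨ 1 < q.2 := by
          by_contra hn
          push Not at hn
          exact ht hn
        have h3 : u q = 0 := by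
          rw [hud]
          simp only
          rw [hdt0 q ht', smul_zero]
        rw [hWd]
        simp only
        rw [h3, lift_zero, map_zero, hdt0 q ht', add_zero]
    have hopen : ∀ t, (a t = 0 ∧ d t < 0) → ∀ᶠ s in 𝓝 t, (a s = 0 ∧ d s < 0) := by
      rintro t ⟨hat, hdt'⟩
      have h2 : ∀ᶠ s in 𝓝 t, ‖a s‖ < c₁ / 3 := by
        refine hac.norm.continuousAt.eventually_lt_const ?_
        change ‖a t‖ < c₁ / 3
        rw [hat, norm_zero]
        positivity
      have h3 : ∀ᶠ s in 𝓝 t, d s < 0 := hdc.continuousAt.eventually_lt_const hdt'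
      obtain ⟨ε, hε, hb⟩ := Metric.eventually_nhds_iff_ball.1 (h2.and h3)
      refine Metric.eventually_nhds_iff_ball.2 ⟨ε, hε, fun s hs => ⟨?_, (hb s hs).2⟩⟩
      have h4 : ∀ r ∈ ball t ε, HasDerivWithinAt a 0 (ball t ε) r := by
        intro r hr
        have h5 := hder r
        have h6 : ‖F (f r (x, 0))‖ < c₁ / 3 := by
          have := (hb r hr).1
          rw [had] at this
          exact this
        have h7 : g (f r (x, 0)).1 ≤ -c := by
          have e1 := hsepd r (by linarith [(hb r hr).1])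
          have e2 := (hb r hr).2
          rw [abs_of_neg e2] at e1
          rw [hdd] at e1
          change c ≤ -g (f r (x, 0)).1 at e1
          linarith
        rw [hX0 _ h6.le h7] at h5
        exact h5.hasDerivWithinAt
      have h6 := (convex_ball t ε).is_const_of_fderivWithin_eq_zero (𝕜 := ℝ) (f := a)
        (fun r hr => (h4 r hr).differentiableWithinAt) (fun r hr => by
          have h7 := (h4 r hr).hasFDerivWithinAt.fderivWithin
            (isOpen_ball.uniqueDiffWithinAt hr)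
          rw [h7]
          ext
          simp) hs (mem_ball_self hε)
      rw [h6, hat]
    have hcl : ∀ t, ¬ (a t = 0 ∧ d t < 0) → ∀ᶠ s in 𝓝 t, ¬ (a s = 0 ∧ d s < 0) := by
      intro t hn
      by_cases hat : a t = 0
      · have hd0 : 0 ≤ d t := by
          by_contra h
          exact hn ⟨hat, not_le.1 h⟩
        have h2 := hsepd t (by rw [hat, norm_zero]; exact hc)
        rw [abs_of_nonneg hd0] at h2
        filter_upwards [hdc.continuousAt.eventually_const_lt (show (0 : ℝ) < d t by linarith)]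
          with s hs h3
        exact absurd h3.2 (not_lt.2 (le_of_lt hs))
      · filter_upwards [hac.continuousAt.eventually_ne hat] with s hs h3
        exact hs h3.1
    have hall : ∀ t, (a t = 0 ∧ d t < 0) → ∀ s, (a s = 0 ∧ d s < 0) := by
      intro t hat s
      by_contra hs
      have hO1 : IsOpen {r | ∀ᶠ y in 𝓝 r, (a y = 0 ∧ d y < 0)} := isOpen_setOfPred_eventually_nhds
      have hO2 : IsOpen {r | ∀ᶠ y in 𝓝 r, ¬ (a y = 0 ∧ d y < 0)} :=
        isOpen_setOfPred_eventually_nhds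
      obtain ⟨r, _, hr1, hr2⟩ := isPreconnected_univ _ _ hO1 hO2 (fun r _ => by
        by_cases h : a r = 0 ∧ d r < 0
        · exact Or.inl (hopen r h)
        · exact Or.inr (hcl r h)) ⟨t, trivial, hopen t hat⟩ ⟨s, trivial, hcl s hs⟩
      have e1 : ∀ᶠ y in 𝓝 r, (a y = 0 ∧ d y < 0) := hr1
      have e2 : ∀ᶠ y in 𝓝 r, ¬ (a y = 0 ∧ d y < 0) := hr2
      exact e2.self_of_nhds e1.self_of_nhds
    have ha0 : a 0 = F (x, 0) := by rw [had]; simp only [hf.zero]
    have hd0 : d 0 = g x := by rw [hdd]; simp only [hf.zero]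
    have ha1 : a 1 = F ((f 1 (x, 0)).1, 1) := by
      rw [had]
      have h2 := hpair (x, 0) 1
      rw [zero_add] at h2
      simp only
      rw [← h2]
    have hd1 : d 1 = g (f 1 (x, 0)).1 := by rw [hdd]
    rw [← ha0, ← hd0]
    simp only
    rw [← ha1, ← hd1]
    exact ⟨fun h => hall 0 h 1, fun h => hall 1 h 0⟩

/-- **equivariant isotopy of the part of a regular zero set in a window** -/
theorem level_isoW (Γ : Set (Pr V W)) (F : V × ℝ → W) (hF : ContDiff ℝ ∞ F)
    (hinv : ∀ γ ∈ Γ, ∀ x t, F (act γ.1 x, t) = γ.2 (F (x, t))) (g : V → ℝ) (hg : ContDiff ℝ ∞ g)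
    (hginv : ∀ γ ∈ Γ, ∀ x, g (act γ.1 x) = g x)
    (K : Set V) (hK : IsCompact K) {c : ℝ} (hc : 0 < c)
    (hwin : ∀ x, g x < 0 → ∃ γ ∈ Γ, act γ.1 x ∈ K)
    (hsep : ∀ x t, 0 ≤ t → t ≤ 1 → ‖F (x, t)‖ < c → c ≤ |g x|)
    (hreg : ∀ x t, 0 ≤ t → t ≤ 1 → g x < 0 → F (x, t) = 0 → Surjective (dx F (x, t))) :
    ∃ Φ Ψ : V → V, ContDiff ℝ ∞ Φ ∧ ContDiff ℝ ∞ Ψ ∧ (∀ x, Ψ (Φ x) = x) ∧
      (∀ x, Φ (Ψ x) = x) ∧ (∀ γ ∈ Γ, ∀ x, Φ (act γ.1 x) = act γ.1 (Φ x)) ∧
      (∀ x, 0 ≤ g x → Φ x = x) ∧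
      ∀ x, (F (x, 0) = 0 ∧ g x < 0) ↔ (F (Φ x, 1) = 0 ∧ g (Φ x) < 0) := by
  obtain ⟨S, hS⟩ : ∃ S : ℝ → ℝ, S = Real.smoothTransition := ⟨_, rfl⟩
  have hSs : ContDiff ℝ ∞ S := by rw [hS]; exact Real.smoothTransition.contDiff
  have hS0 : ∀ t, 0 ≤ S t := fun t => by rw [hS]; exact Real.smoothTransition.nonneg t
  have hS1 : ∀ t, S t ≤ 1 := fun t => by rw [hS]; exact Real.smoothTransition.le_one t
  have hSz : ∀ t, t ≤ 0 → S t = 0 := fun t ht => by
    rw [hS]
    exact Real.smoothTransition.zero_of_nonpos ht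
  have hSo : ∀ t, 1 ≤ t → S t = 1 := fun t ht => by
    rw [hS]
    exact Real.smoothTransition.one_of_one_le ht
  obtain ⟨H, hH⟩ : ∃ H : V × ℝ → W, H = fun q => F (q.1, S q.2) := ⟨_, rfl⟩
  have hHs : ContDiff ℝ ∞ H := by
    rw [hH]
    exact hF.comp (contDiff_fst.prodMk (hSs.comp contDiff_snd))
  obtain ⟨Φ, Ψ, a1, a2, a3, a4, a5, a6, a7⟩ := level_auxW Γ H hHs (fun γ hγ q => by
      rw [hH]
      exact hinv γ hγ q.1 (S q.2)) g hg hginv K hK hc hwin (fun x t h => by
      rw [hH] at h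
      exact hsep x (S t) (hS0 t) (hS1 t) h) (fun x t ht => by
      rw [hH]
      simp only
      rw [hSz t ht, hSz 0 le_rfl]) (fun x t ht => by
      rw [hH]
      simp only
      rw [hSo t ht, hSo 1 le_rfl]) (fun x t _ _ hgx h => by
      rw [hH] at h
      intro w
      obtain ⟨v, hv⟩ := hreg x (S t) (hS0 t) (hS1 t) hgx h w
      refine ⟨v, ?_⟩
      rw [dx_apply] at hv ⊢
      have e1 : HasFDerivAt F (fderiv ℝ F (x, S t)) (x, S t) :=
        ((hF.differentiable (by simp)) _).hasFDerivAt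
      have e2 : HasDerivAt (fun b : ℝ => (x + b • v, S t)) (v, 0) 0 := by
        have e1 : HasDerivAt (fun h : ℝ => x + h • v) ((1 : ℝ) • v) 0 :=
          ((hasDerivAt_id (0 : ℝ)).smul_const v).const_add x
        rw [one_smul] at e1
        exact e1.prodMk (hasDerivAt_const _ _)
      have e2' : HasDerivAt (fun b : ℝ => (x + b • v, t)) (v, 0) 0 := by
        have e1 : HasDerivAt (fun h : ℝ => x + h • v) ((1 : ℝ) • v) 0 :=
          ((hasDerivAt_id (0 : ℝ)).smul_const v).const_add x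
        rw [one_smul] at e1
        exact e1.prodMk (hasDerivAt_const _ _)
      have e3 : HasFDerivAt F (fderiv ℝ F (x, S t)) (x + (0 : ℝ) • v, S t) := by
        rw [zero_smul, add_zero]
        exact e1
      have e4 : HasFDerivAt H (fderiv ℝ H (x, t)) (x + (0 : ℝ) • v, t) := by
        rw [zero_smul, add_zero]
        exact ((hHs.differentiable (by simp)) _).hasFDerivAt
      have e5 := e3.comp_hasDerivAt (0 : ℝ) e2
      have e6 := e4.comp_hasDerivAt (0 : ℝ) e2'
      have e7 : (H ∘ fun b : ℝ => (x + b • v, t)) = F ∘ fun b : ℝ => (x + b • v, S t) := by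
        rw [hH]
        rfl
      rw [e7] at e6
      rw [e6.unique e5]
      exact hv)
  refine ⟨Φ, Ψ, a1, a2, a3, a4, a5, a6, fun x => ?_⟩
  have h1 := a7 x
  rw [hH] at h1
  simp only at h1
  rw [hSz 0 le_rfl, hSo 1 le_rfl] at h1
  exact h1

end Pool.Agent.K7.H28.TR
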