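import Pool.Agent.K7.H28.EQ.A4

/-!
# The mollification of a function which is coarsely increasing in one direction
-/

set_option autoImplicit false

open Set Filter Topology Metric Function MeasureTheory
open scoped ContDiff NNReal

noncomputable section

namespace Pool.Agent.K7.H28.TR

open Pool.Agent.K7.H28.EQ

variable {V : Type} [NormedAddCommGroup V] [InnerProductSpace ℝ V] [FiniteDimensional ℝ V]
  [MeasurableSpace V] [BorelSpace V]

/-- moving and rescaling the kernel -/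
theorem moll_diffV : ∃ C : ℝ, 0 ≤ C ∧ ∀ (g : V → ℝ) (M : ℝ), 0 ≤ M → Continuous g →
    (∀ w, ‖w‖ ≤ 3 → |g w| ≤ M) → ∀ (ρ : ℝ) (a : V), |ρ - 1| ≤ 1 / 2 → ‖a‖ ≤ 1 →
    |(∫ s, kr s * g (a + ρ • s)) - ∫ s, kr s * g s| ≤ C * M * (|ρ - 1| + ‖a‖) := by
  obtain ⟨C₁, hC₁, h1⟩ := scale_err (V := V)
  obtain ⟨L, hL⟩ := ((kr_smooth (V := V)).of_le
    (by simp : (1 : WithTop ℕ∞) ≤ ∞)).lipschitzWith_of_hasCompactSupport kr_cpt one_ne_zero
  obtain ⟨B, hB⟩ : ∃ B : ℝ, B = (volume : Measure V).real (ball 0 2) := ⟨_, rfl⟩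
  have hB0 : 0 ≤ B := by rw [hB]; exact measureReal_nonneg
  refine ⟨C₁ + L * B, by positivity, fun g M hM hg hgM ρ a hρ ha => ?_⟩
  have hρ' := abs_le.1 hρ
  obtain ⟨k, hk⟩ : ∃ k : V → ℝ, k = fun w => max (-M) (min M (g w)) := ⟨_, rfl⟩
  have hkc : Continuous k := by
    rw [hk]
    exact continuous_const.max (continuous_const.min hg)
  have hkM : ∀ w, |k w| ≤ M := by
    intro w
    rw [hk, abs_le]
    exact ⟨le_max_left _ _, max_le (by linarith) (min_le_left _ _)⟩
  have hkg : ∀ w, ‖w‖ ≤ 3 → k w = g w := by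
    intro w hw
    have := abs_le.1 (hgM w hw)
    rw [hk]
    simp only
    rw [min_eq_right this.2, max_eq_right this.1]
  have e1 : (∫ s, kr s * g (a + ρ • s)) = ∫ s, kr s * k (a + ρ • s) := by
    congr 1
    funext s
    by_cases hs : kr s = 0
    · rw [hs, zero_mul, zero_mul]
    · rw [hkg]
      refine (norm_add_le _ _).trans ?_
      rw [norm_smul, Real.norm_of_nonneg (by linarith)]
      have := kr_lt hs
      nlinarith [norm_nonneg s]
  have e2 : (∫ s, kr s * g s) = ∫ s, kr s * k s := by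
    congr 1
    funext s
    by_cases hs : kr s = 0
    · rw [hs, zero_mul, zero_mul]
    · rw [hkg]
      have := kr_lt hs
      linarith
  rw [e1, e2]
  -- the first part: rescaling
  have h2 : |(∫ s, kr s * k (a + ρ • s)) - ∫ s, kr s * k (s + a)| ≤ C₁ * M * |ρ - 1| := by
    rcases eq_or_lt_of_le hM with h0 | h0
    · have hk0 : ∀ w, k w = 0 := fun w => by
        have := hkM w
        rw [← h0] at this
        exact abs_nonpos_iff.1 this
      simp only [hk0, mul_zero, integral_zero, sub_self, abs_zero, ← h0, zero_mul, le_refl]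
    · have h3 := h1 (fun w => k w / M) a 1 ρ (hkc.div_const M) (fun z => by
        rw [abs_div, abs_of_pos h0, div_le_one h0]
        exact hkM z) hρ
      simp only [one_smul] at h3
      have h4 : ∀ f : V → V, ∫ s, kr s * (k (f s) / M) = (∫ s, kr s * k (f s)) / M := by
        intro f
        rw [← integral_div]
        congr 1
        funext s
        ring
      rw [h4 (fun s => a + ρ • s), h4 (fun s => s + a), ← sub_div, abs_div, abs_of_pos h0,
        div_le_iff₀ h0] at h3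
      linarith
  -- the second part: translation
  have h3 : |(∫ s, kr s * k (s + a)) - ∫ s, kr s * k s| ≤ L * B * M * ‖a‖ := by
    have i1 : Integrable fun s => kr s * k (s + a) := kr_int_g (hkc.comp (by fun_prop))
    have i2 : Integrable fun s => kr (s - a) * k s := by
      have := i1.comp_sub_right a
      simpa using this
    have i3 : Integrable fun s => kr s * k s := kr_int_g hkc
    have e3 : (∫ s, kr s * k (s + a)) = ∫ s, kr (s - a) * k s := by
      have := integral_sub_right_eq_self (μ := (volume : Measure V)) (fun s => kr s * k (s + a)) a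
      rw [← this]
      simp
    rw [e3, ← integral_sub i2 i3]
    have e4 : (∫ s, (kr (s - a) * k s - kr s * k s)) =
        ∫ s in ball (0 : V) 2, (kr (s - a) * k s - kr s * k s) := by
      symm
      refine setIntegral_eq_integral_of_forall_compl_eq_zero fun s hs => ?_
      rw [mem_ball_zero_iff, not_lt] at hs
      have q1 : kr (s - a) = 0 := kr_zero (by
        have := norm_sub_norm_le s a
        linarith)
      have q2 : kr s = 0 := kr_zero (by linarith)
      rw [q1, q2, zero_mul, sub_zero]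
    rw [e4]
    have h5 := norm_setIntegral_le_of_norm_le_const (μ := (volume : Measure V))
      (s := ball (0 : V) 2) (C := L * M * ‖a‖) measure_ball_lt_top
      (f := fun s => kr (s - a) * k s - kr s * k s) (fun s _ => ?_)
    · rw [Real.norm_eq_abs, ← hB] at h5
      refine h5.trans (le_of_eq ?_)
      ring
    · rw [← sub_mul, norm_mul]
      have h6 := hL.dist_le_mul (s - a) s
      rw [dist_eq_norm, dist_eq_norm, show s - a - s = -a by abel, norm_neg] at h6
      rw [Real.norm_eq_abs (k s)]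
      calc ‖kr (s - a) - kr s‖ * |k s| ≤ (L * ‖a‖) * M :=
            mul_le_mul h6 (hkM s) (abs_nonneg _) (by positivity)
        _ = L * M * ‖a‖ := by ring
  have h4 := abs_sub_le (∫ s, kr s * k (a + ρ • s)) (∫ s, kr s * k (s + a)) (∫ s, kr s * k s)
  have h5 : 0 ≤ C₁ * M * ‖a‖ := by positivity
  have h6 : 0 ≤ L * B * M * |ρ - 1| := by positivity
  calc |(∫ s, kr s * k (a + ρ • s)) - ∫ s, kr s * k s| ≤
        C₁ * M * |ρ - 1| + L * B * M * ‖a‖ := h4.trans (add_le_add h2 h3)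
    _ ≤ (C₁ + L * B) * M * (|ρ - 1| + ‖a‖) := by nlinarith

theorem kr_inner_zero (u : V) : ∫ s, kr s * (inner ℝ u s : ℝ) = 0 := by
  have h1 := integral_neg_eq_self (μ := (volume : Measure V)) (fun s => kr s * (inner ℝ u s : ℝ))
  have h2 : ∀ s : V, kr (-s) * (inner ℝ u (-s) : ℝ) = -(kr s * (inner ℝ u s : ℝ)) := by
    intro s
    have := kr_radial (LinearIsometryEquiv.neg ℝ) s
    rw [LinearIsometryEquiv.coe_neg] at this
    simp only at this
    rw [this, inner_neg_right]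
    ring
  simp only [h2, integral_neg] at h1
  linarith

theorem kr_innerV (u a : V) (ρ : ℝ) :
    ∫ s, kr s * (inner ℝ u (a + ρ • s) : ℝ) = inner ℝ u a := by
  have i1 : Integrable (fun s : V => kr s * (inner ℝ u s : ℝ)) :=
    kr_int_g (continuous_const.inner continuous_id)
  have h1 : ∀ s : V, kr s * (inner ℝ u (a + ρ • s) : ℝ) =
      kr s * (inner ℝ u a : ℝ) + ρ * (kr s * inner ℝ u s) := by
    intro s
    rw [inner_add_right, inner_smul_right]
    ring
  rw [integral_congr_ae (Eventually.of_forall h1),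
    integral_add (kr_integrable.mul_const _) (i1.const_mul ρ), integral_mul_const, kr_int, one_mul,
    integral_const_mul, kr_inner_zero, mul_zero, add_zero]

theorem kr_monoV {e e' : V → ℝ} (he : Continuous e) (he' : Continuous e')
    (h : ∀ s, ‖s‖ ≤ 1 → e s ≤ e' s) : ∫ s, kr s * e s ≤ ∫ s, kr s * e' s := by
  refine integral_mono (kr_int_g he) (kr_int_g he') fun s => ?_
  by_cases hs : kr s = 0
  · simp only [hs, zero_mul, le_refl]
  · exact mul_le_mul_of_nonneg_left (h s (kr_lt hs).le) (kr_nonneg s)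

section maxf

/-- the running maximum of `f` in the direction `u` -/
def rmax (u : V) (f : V → ℝ) (w : V) : ℝ :=
  sSup ((fun s : ℝ => f (w - ((1 - s) * (inner ℝ u w + 3)) • u)) '' Icc (0 : ℝ) 1)

theorem rmax_cont (u : V) {f : V → ℝ} (hf : Continuous f) : Continuous (rmax u f) := by
  have h1 : Continuous fun p : V × ℝ => f (p.1 - ((1 - p.2) * (inner ℝ u p.1 + 3)) • u) := by
    have h2 : Continuous fun p : V × ℝ => (inner ℝ u p.1 : ℝ) :=
      continuous_const.inner continuous_fst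
    have h3 : Continuous fun p : V × ℝ => (1 - p.2) * (inner ℝ u p.1 + 3) :=
      (continuous_const.sub continuous_snd).mul (h2.add continuous_const)
    exact hf.comp (continuous_fst.sub (h3.smul continuous_const))
  exact (isCompact_Icc (a := (0 : ℝ)) (b := 1)).continuous_sSup h1

theorem rmax_bdd (u : V) {f : V → ℝ} (hf : Continuous f) (w : V) :
    BddAbove ((fun s : ℝ => f (w - ((1 - s) * (inner ℝ u w + 3)) • u)) '' Icc (0 : ℝ) 1) := by
  refine ((isCompact_Icc (a := (0 : ℝ)) (b := 1)).image ?_).bddAbove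
  fun_prop

theorem le_rmax (u : V) {f : V → ℝ} (hf : Continuous f) (w : V) : f w ≤ rmax u f w := by
  refine le_csSup (rmax_bdd u hf w) ⟨1, ⟨zero_le_one, le_rfl⟩, ?_⟩
  simp

theorem rmax_mono {u : V} (hu : ‖u‖ = 1) {f : V → ℝ} (hf : Continuous f) {w : V} {τ : ℝ}
    (hτ : 0 ≤ τ) (hw : 0 ≤ inner ℝ u w + 3) : rmax u f w ≤ rmax u f (w + τ • u) := by
  refine csSup_le_csSup (rmax_bdd u hf _) ⟨_, ⟨0, ⟨le_rfl, zero_le_one⟩, rfl⟩⟩ ?_
  rintro _ ⟨s, ⟨hs0, hs1⟩, rfl⟩
  have huu : inner ℝ u (w + τ • u) = inner ℝ u w + τ := by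
    rw [inner_add_right, inner_smul_right, real_inner_self_eq_norm_sq, hu]
    ring
  rcases eq_or_lt_of_le hτ with h0 | h0
  · refine ⟨s, ⟨hs0, hs1⟩, ?_⟩
    simp only [← h0, zero_smul, add_zero]
  · have hd : 0 < inner ℝ u w + τ + 3 := by linarith
    refine ⟨1 - (τ + (1 - s) * (inner ℝ u w + 3)) / (inner ℝ u w + τ + 3), ⟨?_, ?_⟩, ?_⟩
    · rw [sub_nonneg, div_le_one hd]
      nlinarith
    · have h1 : 0 ≤ (τ + (1 - s) * (inner ℝ u w + 3)) / (inner ℝ u w + τ + 3) := by
        refine div_nonneg ?_ hd.le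
        have := mul_nonneg (sub_nonneg.2 hs1) hw
        linarith
      linarith
    · change f (w + τ • u - ((1 - (1 - (τ + (1 - s) * (inner ℝ u w + 3)) /
        (inner ℝ u w + τ + 3))) * (inner ℝ u (w + τ • u) + 3)) • u) =
        f (w - ((1 - s) * (inner ℝ u w + 3)) • u)
      congr 1
      rw [huu, sub_sub_cancel, div_mul_cancel₀ _ hd.ne', add_smul]
      abel

theorem rmax_le {u : V} (hu : ‖u‖ = 1) {f : V → ℝ} {η : ℝ} (hη : 0 ≤ η)
    (h : ∀ (w : V) (t : ℝ), 0 < t → ‖w‖ ≤ 5 → ‖w + t • u‖ ≤ 5 → f w - η ≤ f (w + t • u))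
    {w : V} (hw : ‖w‖ ≤ 3) : rmax u f w ≤ f w + η := by
  refine csSup_le ⟨_, ⟨0, ⟨le_rfl, zero_le_one⟩, rfl⟩⟩ ?_
  rintro _ ⟨s, ⟨hs0, hs1⟩, rfl⟩
  change f (w - ((1 - s) * (inner ℝ u w + 3)) • u) ≤ _
  have hin : |inner ℝ u w| ≤ 3 := by
    refine (abs_real_inner_le_norm u w).trans ?_
    rw [hu, one_mul]
    exact hw
  have hin' := abs_le.1 hin
  obtain ⟨t, ht⟩ : ∃ t : ℝ, t = (1 - s) * (inner ℝ u w + 3) := ⟨_, rfl⟩
  have ht0 : 0 ≤ t := by
    rw [ht]
    exact mul_nonneg (sub_nonneg.2 hs1) (by linarith [hin'.1])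
  have ht1 : t ≤ inner ℝ u w + 3 := by
    rw [ht]
    have := mul_nonneg hs0 (show 0 ≤ inner ℝ u w + 3 by linarith [hin'.1])
    nlinarith
  rw [← ht]
  rcases eq_or_lt_of_le ht0 with h0 | h0
  · rw [← h0, zero_smul, sub_zero]
    linarith
  · have hn : ‖w - t • u‖ ≤ 5 := by
      have h1 : ‖w - t • u‖ ^ 2 = ‖w‖ ^ 2 - 2 * (t * inner ℝ u w) + t ^ 2 := by
        rw [norm_sub_sq_real, inner_smul_right, real_inner_comm, norm_smul, hu, mul_one,
          Real.norm_eq_abs, sq_abs]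
      have h2 : ‖w - t • u‖ ^ 2 ≤ 5 ^ 2 := by
        rw [h1]
        have h3 : ‖w‖ ^ 2 ≤ 9 := by
          have := norm_nonneg w
          nlinarith
        nlinarith [hin'.1, hin'.2]
      exact le_of_sq_le_sq h2 (by norm_num)
    have h1 := h (w - t • u) t h0 hn (by rw [sub_add_cancel]; linarith)
    rw [sub_add_cancel] at h1
    linarith

end maxf

/-- The mollification of a function which is coarsely increasing in the direction `u` increases in the
direction `u`. -/
theorem coarse_posV : ∃ κ : ℝ, 0 < κ ∧ κ ≤ 1 / 64 ∧ ∀ (G c : V → ℝ) (z u : V) (m : ℝ),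
    Continuous G → 0 < c z → 0 < m → m ≤ 1 → ‖u‖ = 1 →
    (∀ z', ‖z' - z‖ ≤ 5 * c z → |c z' - c z| ≤ κ * m * ‖z' - z‖) →
    (∀ y, ‖y - z‖ ≤ 5 * c z → |G y - G z| ≤ 5 * c z) →
    (∀ (y : V) (t : ℝ), 0 < t → ‖y - z‖ ≤ 5 * c z → ‖y + t • u - z‖ ≤ 5 * c z →
      m * t - κ * m * (5 * c z) ≤ G (y + t • u) - G y) →
    ∀ h : ℝ, 0 < h → h ≤ c z / 2 →
      m / 2 * h ≤ MJ G (z + h • u, c (z + h • u)) - MJ G (z, c z) := by
  obtain ⟨C, hC0, hC⟩ := moll_diffV (V := V)
  obtain ⟨κ, hκd⟩ : ∃ κ : ℝ, κ = 1 / (64 * (C + 1)) := ⟨_, rfl⟩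
  have hκ0 : 0 < κ := by
    rw [hκd]
    positivity
  have hκ1 : κ ≤ 1 / 64 := by
    rw [hκd]
    exact one_div_le_one_div_of_le (by norm_num) (by linarith)
  have hκC : C * κ ≤ 1 / 64 := by
    rw [hκd, mul_one_div, div_le_div_iff₀ (by positivity) (by norm_num)]
    linarith
  refine ⟨κ, hκ0, hκ1, ?_⟩
  intro G c z u m hG hcz hm0 hm1 hu hcc hbd hmon h hh0 hh1
  obtain ⟨c₀, hc₀⟩ : ∃ c₀ : ℝ, c₀ = c z := ⟨_, rfl⟩
  rw [← hc₀] at hcz hcc hbd hmon hh1
  obtain ⟨e, hed⟩ : ∃ e : V → ℝ, e = fun w => G (z + c₀ • w) - G z := ⟨_, rfl⟩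
  have hec : Continuous e := by
    rw [hed]
    exact (hG.comp (by fun_prop)).sub continuous_const
  obtain ⟨f, hfd⟩ : ∃ f : V → ℝ, f = fun w => e w - m * c₀ * inner ℝ u w := ⟨_, rfl⟩
  have hfc : Continuous f := by
    rw [hfd]
    exact hec.sub (continuous_const.mul (continuous_const.inner continuous_id))
  have hin : ∀ w : V, ‖w‖ ≤ 5 → ‖(z + c₀ • w) - z‖ ≤ 5 * c₀ := by
    intro w hw
    rw [add_sub_cancel_left, norm_smul, Real.norm_of_nonneg hcz.le]
    nlinarith
  have huu : (inner ℝ u u : ℝ) = 1 := by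
    rw [real_inner_self_eq_norm_sq, hu]
    norm_num
  have hmc : 0 ≤ m * c₀ := by positivity
  have hfm : ∀ (w : V) (t : ℝ), 0 < t → ‖w‖ ≤ 5 → ‖w + t • u‖ ≤ 5 →
      f w - 5 * κ * (m * c₀) ≤ f (w + t • u) := by
    intro w t ht hw hw'
    have h1 := hmon (z + c₀ • w) (c₀ * t) (mul_pos hcz ht) (hin w hw) (by
      have h2 := hin _ hw'
      have h3 : z + c₀ • w + (c₀ * t) • u - z = z + c₀ • (w + t • u) - z := by
        rw [smul_add, smul_smul, add_assoc]
      rw [h3]
      exact h2)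
    have h2 : z + c₀ • w + (c₀ * t) • u = z + c₀ • (w + t • u) := by
      rw [smul_add, smul_smul, add_assoc]
    rw [h2] at h1
    have h3 : e (w + t • u) - e w = G (z + c₀ • (w + t • u)) - G (z + c₀ • w) := by
      rw [hed]
      simp only
      ring
    have h4 : f (w + t • u) - f w = e (w + t • u) - e w - m * c₀ * t := by
      rw [hfd]
      simp only
      rw [inner_add_right, inner_smul_right, huu]
      ring
    rw [← h3] at h1
    nlinarith
  obtain ⟨f₁, hf₁d⟩ : ∃ f₁ : V → ℝ, f₁ = rmax u f := ⟨_, rfl⟩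
  have hf₁c : Continuous f₁ := by rw [hf₁d]; exact rmax_cont u hfc
  have hfle : ∀ w, f w ≤ f₁ w := fun w => by rw [hf₁d]; exact le_rmax u hfc w
  have hfle' : ∀ w, ‖w‖ ≤ 3 → f₁ w ≤ f w + 5 * κ * (m * c₀) := fun w hw => by
    rw [hf₁d]
    exact rmax_le hu (by positivity) hfm hw
  have hfb : ∀ w : V, ‖w‖ ≤ 3 → |f w| ≤ 8 * c₀ := by
    intro w hw
    have h1 : |e w| ≤ 5 * c₀ := by
      rw [hed]
      exact hbd _ (hin w (hw.trans (by norm_num)))
    have h2 : |(inner ℝ u w : ℝ)| ≤ 3 := by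
      refine (abs_real_inner_le_norm u w).trans ?_
      rw [hu, one_mul]
      exact hw
    have h3 : |m * c₀ * inner ℝ u w| ≤ 3 * c₀ := by
      rw [abs_mul, abs_of_nonneg hmc]
      have h4 : m * c₀ ≤ c₀ := by nlinarith
      calc m * c₀ * |(inner ℝ u w : ℝ)| ≤ c₀ * 3 :=
            mul_le_mul h4 h2 (abs_nonneg _) hcz.le
        _ = 3 * c₀ := by ring
    rw [hfd]
    refine (abs_sub _ _).trans ?_
    linarith
  have hf₁b : ∀ w : V, ‖w‖ ≤ 3 → |f₁ w| ≤ 9 * c₀ := by
    intro w hw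
    have h1 := abs_le.1 (hfb w hw)
    have h2 := hfle w
    have h3 := hfle' w hw
    have h4 : 5 * κ * (m * c₀) ≤ c₀ := by
      have h5 : m * c₀ ≤ c₀ := by nlinarith
      have h6 : 5 * κ ≤ 1 := by linarith
      nlinarith
    refine abs_le.2 ⟨by linarith [h1.1], by linarith [h1.2]⟩
  obtain ⟨a, had⟩ : ∃ a : V, a = (h / c₀) • u := ⟨_, rfl⟩
  obtain ⟨ρ, hρd⟩ : ∃ ρ : ℝ, ρ = c (z + h • u) / c₀ := ⟨_, rfl⟩
  have hna : ‖a‖ = h / c₀ := by
    rw [had, norm_smul, hu, mul_one, Real.norm_of_nonneg (by positivity)]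
  have hτ : h / c₀ ≤ 1 / 2 := by
    rw [div_le_iff₀ hcz]
    linarith
  have hρ1 : |ρ - 1| ≤ κ * m * (h / c₀) := by
    have h1 : ρ - 1 = (c (z + h • u) - c₀) / c₀ := by
      rw [hρd]
      field_simp
    have h2 := hcc (z + h • u)
    rw [add_sub_cancel_left, norm_smul, hu, mul_one, Real.norm_of_nonneg hh0.le] at h2
    have h2 := h2 (by linarith)
    rw [h1, abs_div, abs_of_pos hcz, div_le_iff₀ hcz]
    refine h2.trans (le_of_eq ?_)
    field_simp
  have hκm : κ * m ≤ 1 := by nlinarith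
  have hτ0 : 0 ≤ h / c₀ := by positivity
  have hρ2 : |ρ - 1| ≤ 1 / 2 := by
    refine hρ1.trans ?_
    nlinarith
  have hρ3 := abs_le.1 hρ2
  have hca : c₀ • a = h • u := by
    rw [had, smul_smul, mul_div_cancel₀ _ hcz.ne']
  have hcρ : c₀ * ρ = c (z + h • u) := by
    rw [hρd]
    field_simp
  -- formulas for the mollification
  have hform : ∀ (b : V) (σ : ℝ), (∫ s, kr s * G (z + c₀ • (b + σ • s))) =
      (∫ s, kr s * e (b + σ • s)) + G z := by
    intro b σ
    have c2 : Continuous fun s : V => e (b + σ • s) := hec.comp (by fun_prop)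
    have i2 := kr_int_g c2
    have h1 : ∀ s : V, kr s * G (z + c₀ • (b + σ • s)) =
        kr s * e (b + σ • s) + kr s * G z := by
      intro s
      rw [hed]
      simp only
      ring
    rw [integral_congr_ae (Eventually.of_forall h1),
      integral_add i2 (kr_integrable.mul_const _), integral_mul_const, kr_int, one_mul]
  have hz' : MJ G (z + h • u, c (z + h • u)) = ∫ s, kr s * G (z + c₀ • (a + ρ • s)) := by
    unfold MJ
    congr 1
    funext s
    congr 2
    rw [smul_add, hca, smul_smul, hcρ]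
    simp only
    abel
  have hz : MJ G (z, c z) = ∫ s, kr s * G (z + c₀ • ((0 : V) + (1 : ℝ) • s)) := by
    unfold MJ
    congr 1
    funext s
    congr 2
    rw [zero_add, one_smul, hc₀]
  have hdec : ∀ (b : V) (σ : ℝ), ∫ s, kr s * e (b + σ • s) =
      m * c₀ * inner ℝ u b + (∫ s, kr s * f₁ (b + σ • s)) -
        ∫ s, kr s * (f₁ (b + σ • s) - f (b + σ • s)) := by
    intro b σ
    have k1 : Continuous fun s : V => (inner ℝ u (b + σ • s) : ℝ) :=
      continuous_const.inner (by fun_prop)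
    have k2 : Continuous fun s : V => f₁ (b + σ • s) := hf₁c.comp (by fun_prop)
    have k3 : Continuous fun s : V => f (b + σ • s) := hfc.comp (by fun_prop)
    have i1 := kr_int_g k1
    have i2 := kr_int_g k2
    have i3 : Integrable fun s : V => kr s * (f₁ (b + σ • s) - f (b + σ • s)) :=
      kr_int_g (k2.sub k3)
    have h1 : ∀ s : V, kr s * e (b + σ • s) =
        m * c₀ * (kr s * (inner ℝ u (b + σ • s) : ℝ)) + kr s * f₁ (b + σ • s) -
          kr s * (f₁ (b + σ • s) - f (b + σ • s)) := by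
      intro s
      have h2 : e (b + σ • s) = f (b + σ • s) + m * c₀ * inner ℝ u (b + σ • s) := by
        rw [hfd]
        simp only
        ring
      rw [h2]
      ring
    have j1 : ∫ s, (m * c₀ * (kr s * (inner ℝ u (b + σ • s) : ℝ)) + kr s * f₁ (b + σ • s) -
        kr s * (f₁ (b + σ • s) - f (b + σ • s))) =
        (∫ s, (m * c₀ * (kr s * (inner ℝ u (b + σ • s) : ℝ)) + kr s * f₁ (b + σ • s))) -
        ∫ s, kr s * (f₁ (b + σ • s) - f (b + σ • s)) :=
      integral_sub ((i1.const_mul (m * c₀)).add i2) i3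
    have j2 : ∫ s, (m * c₀ * (kr s * (inner ℝ u (b + σ • s) : ℝ)) + kr s * f₁ (b + σ • s)) =
        (∫ s, m * c₀ * (kr s * (inner ℝ u (b + σ • s) : ℝ))) +
          ∫ s, kr s * f₁ (b + σ • s) := integral_add (i1.const_mul (m * c₀)) i2
    rw [integral_congr_ae (Eventually.of_forall h1), j1, j2, integral_const_mul, kr_innerV]
  rw [hz', hz, hform, hform, hdec a ρ, hdec 0 1, inner_zero_right, mul_zero]
  have e0 : ∀ (g : V → ℝ), ∫ s, kr s * g ((0 : V) + (1 : ℝ) • s) = ∫ s, kr s * g s := by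
    intro g
    congr 1
    funext s
    rw [zero_add, one_smul]
  have e1 : ∫ s, kr s * f₁ ((0 : V) + (1 : ℝ) • s) = ∫ s, kr s * f₁ s := e0 f₁
  have e2 : ∫ s, kr s * (f₁ ((0 : V) + (1 : ℝ) • s) - f ((0 : V) + (1 : ℝ) • s)) =
      ∫ s, kr s * (f₁ s - f s) := e0 fun w => f₁ w - f w
  rw [e1, e2]
  have ea : m * c₀ * inner ℝ u a = m * h := by
    rw [had, inner_smul_right, huu]
    field_simp
  rw [ea]
  -- the error term
  have b1 := hC (fun w => f₁ w - f w) (5 * κ * (m * c₀)) (by positivity) (hf₁c.sub hfc)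
    (fun w hw => by
      have h1 := hfle w
      have h2 := hfle' w hw
      exact abs_le.2 ⟨by
        have : 0 ≤ 5 * κ * (m * c₀) := by positivity
        linarith, by linarith⟩) ρ a hρ2 (by rw [hna]; linarith)
  have b2 := hC f₁ (9 * c₀) (by positivity) hf₁c hf₁b ρ 0 hρ2 (by simp)
  have b3 : ∫ s, kr s * f₁ ((0 : V) + ρ • s) ≤ ∫ s, kr s * f₁ (a + ρ • s) := by
    refine kr_monoV (hf₁c.comp (by fun_prop)) (hf₁c.comp (by fun_prop)) fun s hs => ?_
    have h1 := rmax_mono hu hfc (w := (0 : V) + ρ • s) (τ := h / c₀) hτ0 (by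
      have h2 : |(inner ℝ u ((0 : V) + ρ • s) : ℝ)| ≤ 2 := by
        refine (abs_real_inner_le_norm u _).trans ?_
        rw [hu, one_mul, zero_add, norm_smul, Real.norm_of_nonneg (by linarith [hρ3.1])]
        nlinarith [norm_nonneg s, hρ3.2]
      linarith [(abs_le.1 h2).1])
    rw [hf₁d]
    refine h1.trans (le_of_eq ?_)
    congr 1
    rw [had, zero_add, add_comm]
  have b1' := (abs_le.1 b1)
  have b2' := (abs_le.1 b2)
  have c1 : C * (5 * κ * (m * c₀)) * (|ρ - 1| + ‖a‖) ≤ 10 / 64 * (m * h) := by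
    have h1 : |ρ - 1| + ‖a‖ ≤ 2 * (h / c₀) := by
      rw [hna]
      nlinarith
    have h2 : C * (5 * κ * (m * c₀)) * (|ρ - 1| + ‖a‖) ≤
        C * (5 * κ * (m * c₀)) * (2 * (h / c₀)) := mul_le_mul_of_nonneg_left h1 (by positivity)
    have h3 : C * (5 * κ * (m * c₀)) * (2 * (h / c₀)) = 10 * (C * κ) * (m * h) := by
      field_simp
      ring
    rw [h3] at h2
    have h4 : 0 ≤ m * h := by positivity
    nlinarith
  have c2 : C * (9 * c₀) * (|ρ - 1| + ‖(0 : V)‖) ≤ 9 / 64 * (m * h) := by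
    rw [norm_zero, add_zero]
    have h2 : C * (9 * c₀) * |ρ - 1| ≤ C * (9 * c₀) * (κ * m * (h / c₀)) :=
      mul_le_mul_of_nonneg_left hρ1 (by positivity)
    have h3 : C * (9 * c₀) * (κ * m * (h / c₀)) = 9 * (C * κ) * (m * h) := by
      field_simp
    rw [h3] at h2
    have h4 : 0 ≤ m * h := by positivity
    nlinarith
  have hmh : 0 ≤ m * h := by positivity
  linarith [b1'.1, b1'.2, b2'.1, b2'.2]

end Pool.Agent.K7.H28.TR
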