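import Pool.Agent.K7.H28.TR.T2
import Pool.Agent.K7.H28.TR.T3

/-!
# The mollification of vector valued functions
-/

set_option autoImplicit false

open Set Filter Topology Metric Function MeasureTheory
open scoped ContDiff NNReal

noncomputable section

namespace Pool.Agent.K7.H28.TR

open Pool.Agent.K7.H28.EQ

variable {V W : Type} [NormedAddCommGroup V] [InnerProductSpace ℝ V] [FiniteDimensional ℝ V]
  [MeasurableSpace V] [BorelSpace V]
  [NormedAddCommGroup W] [InnerProductSpace ℝ W] [FiniteDimensional ℝ W]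

/-- the mollification as a function of the centre and the radius -/
def MW (F : V → W) (q : V × ℝ) : W := ∫ s, kr s • F (q.1 + q.2 • s)

theorem kr_int_w {f : V → W} (hf : Continuous f) : Integrable fun z => kr z • f z :=
  (kr_cont.smul hf).integrable_of_hasCompactSupport kr_cpt.smul_right

theorem MW_lin {F : V → W} (hF : Continuous F) (ℓ : W →L[ℝ] ℝ) (q : V × ℝ) :
    ℓ (MW F q) = MJ (fun x => ℓ (F x)) q := by
  have i1 : Integrable fun s : V => kr s • F (q.1 + q.2 • s) :=
    kr_int_w (hF.comp (by fun_prop))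
  unfold MW MJ
  rw [← ContinuousLinearMap.integral_comp_comm ℓ i1]
  congr 1
  funext s
  rw [map_smul, smul_eq_mul]

theorem MW_sum {F : V → W} (hF : Continuous F) (q : V × ℝ) :
    MW F q = ∑ j, MJ (fun x => innerSL ℝ (stdOrthonormalBasis ℝ W j) (F x)) q •
      stdOrthonormalBasis ℝ W j := by
  conv_lhs => rw [← (stdOrthonormalBasis ℝ W).sum_repr' (MW F q)]
  refine Finset.sum_congr rfl fun j _ => ?_
  rw [← MW_lin hF, innerSL_apply_apply]

theorem MW_smooth {F : V → W} (hF : ContDiff ℝ ∞ F) : ContDiff ℝ ∞ (MW F) := by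
  have h1 : MW F = fun q => ∑ j, MJ (fun x => innerSL ℝ (stdOrthonormalBasis ℝ W j) (F x)) q •
      stdOrthonormalBasis ℝ W j := funext fun q => MW_sum hF.continuous q
  rw [h1]
  refine ContDiff.sum fun j _ => ContDiff.smul ?_ contDiff_const
  exact MJ_smooth ((innerSL ℝ (stdOrthonormalBasis ℝ W j)).contDiff.comp hF)

theorem MW_zero (F : V → W) (x : V) : MW F (x, 0) = F x := by
  unfold MW
  simp only [zero_smul, add_zero]
  rw [integral_smul_const, kr_int, one_smul]

theorem MW_near {F : V → W} (hF : Continuous F) (hlip : ∀ x y, ‖F x - F y‖ ≤ ‖x - y‖) (x : V)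
    {c : ℝ} (hc : 0 ≤ c) : ‖MW F (x, c) - F x‖ ≤ c := by
  have h1 : MW F (x, c) - F x = ∫ s, kr s • (F (x + c • s) - F x) := by
    have i1 : Integrable fun s : V => kr s • F (x + c • s) := kr_int_w (hF.comp (by fun_prop))
    have i2 : Integrable fun s : V => kr s • F x := kr_int_w continuous_const
    simp only [smul_sub]
    rw [integral_sub i1 i2, integral_smul_const, kr_int, one_smul]
    rfl
  rw [h1]
  have h2 : ‖∫ s, kr s • (F (x + c • s) - F x)‖ ≤ ∫ s : V, kr s * c := by
    refine norm_integral_le_of_norm_le (kr_integrable.mul_const _) (Eventually.of_forall fun s => ?_)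
    rw [norm_smul, Real.norm_of_nonneg (kr_nonneg s)]
    by_cases hs : kr s = 0
    · rw [hs, zero_mul, zero_mul]
    · refine mul_le_mul_of_nonneg_left ((hlip _ _).trans ?_) (kr_nonneg s)
      rw [add_sub_cancel_left, norm_smul, Real.norm_of_nonneg hc]
      have := kr_lt hs
      nlinarith [norm_nonneg s]
  rwa [integral_mul_const, kr_int, one_mul] at h2

theorem MW_equi {F : V → W} {γ : Pr V W} (hF : Continuous F)
    (h : ∀ x, F (act γ.1 x) = γ.2 (F x)) (x : V) (c : ℝ) :
    MW F (act γ.1 x, c) = γ.2 (MW F (x, c)) := by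
  have h1 := (LinearIsometryEquiv.measurePreserving γ.1.1).integral_comp
    (LinearIsometryEquiv.toHomeomorph γ.1.1).measurableEmbedding
    (fun s => kr s • F (act γ.1 x + c • s))
  unfold MW
  rw [← h1]
  have h2 : γ.2 (∫ s, kr s • F (x + c • s)) = ∫ s, γ.2 (kr s • F (x + c • s)) :=
    (ContinuousLinearMap.integral_comp_comm (γ.2.toContinuousLinearEquiv : W →L[ℝ] W)
      (kr_int_w (hF.comp (by fun_prop)))).symm
  rw [h2]
  congr 1
  funext s
  have h3 : act γ.1 x + c • γ.1.1 s = act γ.1 (x + c • s) := by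
    rw [act_add, map_smul]
  rw [kr_radial, h3, h, map_smul]

/-- injectivity on a subspace of the right dimension -/
theorem surj_of_pos {A : V →L[ℝ] W} {P : Submodule ℝ V}
    (hP : Module.finrank ℝ P = Module.finrank ℝ W)
    (h : ∀ u ∈ P, ‖u‖ = 1 → ∃ ℓ : W →L[ℝ] ℝ, 0 < ℓ (A u)) : Surjective A := by
  have hinj : Injective ((A : V →ₗ[ℝ] W).comp P.subtype) := by
    rw [injective_iff_map_eq_zero]
    rintro ⟨u, hu⟩ h0
    have h1 : A u = 0 := h0
    by_contra hne
    have hu0 : u ≠ 0 := fun h => hne (Subtype.ext h)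
    have hn : ‖u‖ ≠ 0 := norm_ne_zero_iff.2 hu0
    obtain ⟨ℓ, hℓ⟩ := h (‖u‖⁻¹ • u) (P.smul_mem _ hu) (by
      rw [norm_smul, norm_inv, norm_norm, inv_mul_cancel₀ hn])
    rw [map_smul, h1, smul_zero, map_zero] at hℓ
    exact lt_irrefl _ hℓ
  have hs := (LinearMap.injective_iff_surjective_of_finrank_eq_finrank hP).1 hinj
  intro w
  obtain ⟨v, hv⟩ := hs w
  exact ⟨v, hv⟩

/-- the space derivative as a derivative along a line -/
theorem dx_line {H : V × ℝ → W} (hH : ContDiff ℝ ∞ H) (x v : V) (t : ℝ) :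
    HasDerivAt (fun h : ℝ => H (x + h • v, t)) (dx H (x, t) v) 0 := by
  have e2 : HasDerivAt (fun b : ℝ => (x + b • v, t)) (v, (0 : ℝ)) 0 := by
    have e1 : HasDerivAt (fun h : ℝ => x + h • v) ((1 : ℝ) • v) 0 :=
      ((hasDerivAt_id (0 : ℝ)).smul_const v).const_add x
    rw [one_smul] at e1
    exact e1.prodMk (hasDerivAt_const _ _)
  have e3 : HasFDerivAt H (fderiv ℝ H (x, t)) (x + (0 : ℝ) • v, t) := by
    rw [zero_smul, add_zero]
    exact ((hH.differentiable (by simp)) _).hasFDerivAt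
  exact e3.comp_hasDerivAt (0 : ℝ) e2

end Pool.Agent.K7.H28.TR
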