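import Pool.Agent.K7.H28.TR.T4
import Pool.Agent.K7.H28.GS.L3

/-!
# Coarsely transverse functions: the isotopy to the mollification
-/

set_option autoImplicit false

open Set Filter Topology Metric Function MeasureTheory
open scoped ContDiff NNReal

noncomputable section

namespace Pool.Agent.K7.H28.TR

open Pool.Agent.K7.H28.EQ

variable {V W : Type} [NormedAddCommGroup V] [InnerProductSpace ℝ V] [FiniteDimensional ℝ V]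
  [NormedAddCommGroup W] [InnerProductSpace ℝ W] [FiniteDimensional ℝ W]

/-- coarse submersion in the ball of radius `r` about `x` -/
def Sub (κ m : ℝ) (F : V → W) (x : V) (r : ℝ) : Prop :=
  ∃ P : Submodule ℝ V, Module.finrank ℝ P = Module.finrank ℝ W ∧ ∀ u ∈ P, ‖u‖ = 1 →
    ∃ ℓ : W →L[ℝ] ℝ, ‖ℓ‖ ≤ 1 ∧ ∀ (y : V) (t : ℝ), 0 < t → ‖y - x‖ ≤ r → ‖y + t • u - x‖ ≤ r →
      m * t - κ * m * r ≤ ℓ (F (y + t • u) - F y)

/-- the pairs `(F, g)` of the class -/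
structure Cls (Γ : Set (Pr V W)) (κ m : ℝ) (K : Set V) (ρ : V → ℝ) (F : V → W) (g : V → ℝ) :
    Prop where
  smooth : ContDiff ℝ ∞ F
  smooth' : ContDiff ℝ ∞ g
  lip : ∀ x y, ‖F x - F y‖ ≤ ‖x - y‖
  lip' : ∀ x y, |g x - g y| ≤ ‖x - y‖
  equi : ∀ γ ∈ Γ, ∀ x, F (act γ.1 x) = γ.2 (F x)
  inv : ∀ γ ∈ Γ, ∀ x, g (act γ.1 x) = g x
  win : ∀ x, g x < 2 * ρ x → ∃ γ ∈ Γ, act γ.1 x ∈ K
  sep : ∀ x, |g x| < 2 * ρ x → 2 * ρ x ≤ ‖F x‖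
  regular : ∀ x, g x < 0 → F x = 0 → Surjective (fderiv ℝ F x)
  sub : ∀ x, g x < 0 → ∀ r, 0 < r → r ≤ ρ x → ‖F x‖ < r → Sub κ m F x r

/-- scale functions -/
structure ScT (Γ : Set (Pr V W)) (ε : ℝ) (ρ : V → ℝ) : Prop where
  smooth : ContDiff ℝ ∞ ρ
  inv : ∀ γ ∈ Γ, ∀ x, ρ (act γ.1 x) = ρ x
  low : ∃ c : ℝ, 0 < c ∧ ∀ x, c ≤ ρ x
  lip : ∀ x y, |ρ x - ρ y| ≤ ε * ‖x - y‖

/-- equivalence by an equivariant diffeomorphism -/
def EqvT (Γ : Set (Pr V W)) (D : Set V) (S S' : Set V) : Prop :=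
  ∃ Φ Ψ : V → V, ContDiff ℝ ∞ Φ ∧ ContDiff ℝ ∞ Ψ ∧ (∀ x, Ψ (Φ x) = x) ∧
    (∀ x, Φ (Ψ x) = x) ∧ (∀ γ ∈ Γ, ∀ x, Φ (act γ.1 x) = act γ.1 (Φ x)) ∧
    (∀ x, x ∉ D → Φ x = x) ∧ ∀ x, x ∈ S ↔ Φ x ∈ S'

theorem EqvT.trans {Γ : Set (Pr V W)} {K : Set V} {S S' S'' : Set V} (h : EqvT Γ K S S')
    (h' : EqvT Γ K S' S'') : EqvT Γ K S S'' := by
  obtain ⟨Φ, Ψ, h1, h2, h3, h4, h5, h6, h7⟩ := h
  obtain ⟨Φ', Ψ', h1', h2', h3', h4', h5', h6', h7'⟩ := h'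
  refine ⟨fun x => Φ' (Φ x), fun x => Ψ (Ψ' x), h1'.comp h1, h2.comp h2', fun x => ?_, fun x => ?_,
    fun γ hγ x => ?_, fun x hx => ?_, fun x => (h7 x).trans (h7' _)⟩
  · simp only [h3', h3]
  · simp only [h4, h4']
  · simp only [h5 γ hγ, h5' γ hγ]
  · simp only [h6 x hx, h6' x hx]

theorem EqvT.symm {Γ : Set (Pr V W)} {K : Set V} {S S' : Set V} (h : EqvT Γ K S S') :
    EqvT Γ K S' S := by
  obtain ⟨Φ, Ψ, h1, h2, h3, h4, h5, h6, h7⟩ := h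
  refine ⟨Ψ, Φ, h2, h1, h4, h3, fun γ hγ x => ?_, fun x hx => ?_, fun x => ?_⟩
  · have h8 := h5 γ hγ (Ψ x)
    rw [h4] at h8
    rw [← h8, h3]
  · have h8 := h6 x hx
    have h9 := h3 x
    rw [h8] at h9
    exact h9
  · have h8 := h7 (Ψ x)
    rw [h4] at h8
    exact h8.symm

/-- the derivative of the mollification -/
def PosP (V : Type) [NormedAddCommGroup V] [InnerProductSpace ℝ V] [FiniteDimensional ℝ V]
    [MeasurableSpace V] [BorelSpace V] (κ : ℝ) : Prop :=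
  ∀ (G c : V → ℝ) (z u : V) (m : ℝ),
    Continuous G → 0 < c z → 0 < m → m ≤ 1 → ‖u‖ = 1 →
    (∀ z', ‖z' - z‖ ≤ 5 * c z → |c z' - c z| ≤ κ * m * ‖z' - z‖) →
    (∀ y, ‖y - z‖ ≤ 5 * c z → |G y - G z| ≤ 5 * c z) →
    (∀ (y : V) (t : ℝ), 0 < t → ‖y - z‖ ≤ 5 * c z → ‖y + t • u - z‖ ≤ 5 * c z →
      m * t - κ * m * (5 * c z) ≤ G (y + t • u) - G y) →
    ∀ h : ℝ, 0 < h → h ≤ c z / 2 →
      m / 2 * h ≤ MJ G (z + h • u, c (z + h • u)) - MJ G (z, c z)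

variable [MeasurableSpace V] [BorelSpace V]

/-- regularity of the mollification -/
theorem moll_surj {κ m : ℝ} (hκ0 : 0 < κ) (hκ : PosP V κ) (hm : 0 < m) (hm1 : m ≤ 1) {F : V → W}
    (hF : ContDiff ℝ ∞ F) (hlip : ∀ x y, ‖F x - F y‖ ≤ ‖x - y‖) {ρ : V → ℝ}
    (hρ : ContDiff ℝ ∞ ρ) {x : V} {t : ℝ} (ht : 0 < t) (ht1 : t ≤ 1) (hρx : 0 < ρ x)
    (hρl : ∀ y, |ρ y - ρ x| ≤ κ * m * ‖y - x‖) (hs : Sub κ m F x (t * ρ x))
    {H : V × ℝ → W} (hH : ContDiff ℝ ∞ H) {τ : ℝ}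
    (hHF : ∀ y, H (y, τ) = MW F (y, t * ρ y / 5)) : Surjective (dx H (x, τ)) := by
  obtain ⟨P, hP, hu⟩ := hs
  have hm2 : 0 ≤ κ * m := by positivity
  refine surj_of_pos hP fun u huP hu1 => ?_
  obtain ⟨ℓ, hℓ, hinc⟩ := hu u huP hu1
  refine ⟨ℓ, ?_⟩
  have hlin : ∀ y, ℓ (H (y, τ)) = MJ (fun z => ℓ (F z)) (y, t * ρ y / 5) := by
    intro y
    rw [hHF, MW_lin hF.continuous]
  have hd : HasDerivAt (fun h : ℝ => ℓ (H (x + h • u, τ))) (ℓ (dx H (x, τ) u)) 0 :=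
    ℓ.hasFDerivAt.comp_hasDerivAt (0 : ℝ) (dx_line hH x u τ)
  have hc : 0 < t * ρ x / 5 := by positivity
  have h5 : 5 * (t * ρ x / 5) = t * ρ x := by ring
  have key := hκ (fun z => ℓ (F z)) (fun y => t * ρ y / 5) x u m
    (ℓ.continuous.comp hF.continuous) hc hm hm1 hu1 (fun z' _ => by
      have h1 : t * ρ z' / 5 - t * ρ x / 5 = t / 5 * (ρ z' - ρ x) := by ring
      rw [h1, abs_mul, abs_of_pos (by positivity)]
      have h2 := hρl z'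
      have h3 := abs_nonneg (ρ z' - ρ x)
      nlinarith) (fun y hy => by
      rw [← map_sub]
      have h1 := ℓ.le_opNorm (F y - F x)
      rw [Real.norm_eq_abs] at h1
      have h2 := hlip y x
      have h3 := norm_nonneg (F y - F x)
      nlinarith) (fun y s hs0 hy hys => by
      rw [h5] at hy hys ⊢
      rw [← map_sub]
      exact hinc y s hs0 hy hys)
  have h1 : m / 2 ≤ ℓ (dx H (x, τ) u) := by
    refine Pool.Agent.K7.H28.GS.deriv_ge hd (δ := t * ρ x / 5 / 2) (by positivity) fun a ha ha1 => ?_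
    have h2 := key a ha ha1
    rw [hlin, hlin, zero_smul, add_zero]
    exact h2
  linarith

end Pool.Agent.K7.H28.TR
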