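import Pool.Agent.K7.H28.TR.T5

/-!
# Coarsely transverse functions: the isotopies
-/

set_option autoImplicit false

open Set Filter Topology Metric Function MeasureTheory
open scoped ContDiff NNReal

noncomputable section

namespace Pool.Agent.K7.H28.TR

open Pool.Agent.K7.H28.EQ

variable {V W : Type} [NormedAddCommGroup V] [InnerProductSpace ℝ V] [FiniteDimensional ℝ V]
  [NormedAddCommGroup W] [InnerProductSpace ℝ W] [FiniteDimensional ℝ W]

theorem Sub.mono {κ κ' m : ℝ} {F : V → W} {x : V} {r : ℝ} (hκ : κ ≤ κ') (hm : 0 ≤ m)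
    (hr : 0 ≤ r) (h : Sub κ m F x r) : Sub κ' m F x r := by
  obtain ⟨P, hP, hu⟩ := h
  refine ⟨P, hP, fun u huP hu1 => ?_⟩
  obtain ⟨ℓ, hℓ, hinc⟩ := hu u huP hu1
  refine ⟨ℓ, hℓ, fun y t ht hy hy' => ?_⟩
  have h1 := hinc y t ht hy hy'
  have h2 : κ * m * r ≤ κ' * m * r :=
    mul_le_mul_of_nonneg_right (mul_le_mul_of_nonneg_right hκ hm) hr
  linarith

/-- the functions `F` and `G` (and `g` and `k`) are close where `g` or `k` is not too large -/
def Near (κ m : ℝ) (ρ : V → ℝ) (F : V → W) (g : V → ℝ) (G : V → W) (k : V → ℝ) : Prop :=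
  ∀ y, (g y < 3 / 2 * ρ y ∨ k y < 3 / 2 * ρ y) →
    ‖F y - G y‖ ≤ κ * m * ρ y ∧ |g y - k y| ≤ κ * m * ρ y

theorem Near.symm {κ m : ℝ} {ρ : V → ℝ} {F G : V → W} {g k : V → ℝ} (h : Near κ m ρ F g G k) :
    Near κ m ρ G k F g := by
  intro y hy
  have := h y hy.symm
  rw [norm_sub_rev, abs_sub_comm]
  exact this

variable [MeasurableSpace V] [BorelSpace V]

/-- the isotopy from `F` to its mollification -/
theorem iso1 {Γ : Set (Pr V W)} {κ κ' m : ℝ} {K D : Set V} {ρ : V → ℝ} {F : V → W} {g : V → ℝ}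
    (hκ0 : 0 < κ) (hκ' : κ' ≤ κ) (hκ : PosP V κ) (hm : 0 < m) (hm1 : m ≤ 1) (hK : IsCompact K)
    (hρ : ScT Γ (κ' * m) ρ) (h : Cls Γ κ' m K ρ F g) (hD : ∀ x, g x < 0 → x ∈ D) :
    EqvT Γ D {x | F x = 0 ∧ g x < 0} {x | MW F (x, ρ x / 5) = 0 ∧ g x < 0} := by
  obtain ⟨c, hc, hcρ⟩ := hρ.low
  obtain ⟨H, hHd⟩ : ∃ H : V × ℝ → W, H = fun q => MW F (q.1, q.2 * ρ q.1 / 5) := ⟨_, rfl⟩
  have hH : ContDiff ℝ ∞ H := by
    rw [hHd]
    exact (MW_smooth h.smooth).comp (contDiff_fst.prodMk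
      ((contDiff_snd.mul (hρ.smooth.comp contDiff_fst)).div_const _))
  have hH0 : ∀ x, H (x, 0) = F x := fun x => by
    rw [hHd]
    simp only [zero_mul, zero_div, MW_zero]
  have hnear : ∀ x t, 0 ≤ t → t ≤ 1 → ‖H (x, t) - F x‖ ≤ t * ρ x / 5 := by
    intro x t ht0 _
    rw [hHd]
    exact MW_near h.smooth.continuous h.lip x
      (div_nonneg (mul_nonneg ht0 (hc.le.trans (hcρ x))) (by norm_num))
  obtain ⟨Φ, Ψ, h1, h2, h3, h4, h5, h6, h7⟩ := level_isoW Γ H hH (fun γ hγ x t => by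
      rw [hHd]
      simp only
      rw [hρ.inv γ hγ, MW_equi h.smooth.continuous (h.equi γ hγ)]) g h.smooth' h.inv K hK hc
    (fun x hx => h.win x (by have := hcρ x; linarith)) (fun x t ht0 ht1 hlt => by
      by_contra hn
      rw [not_le] at hn
      have e1 := hcρ x
      have e2 := h.sep x (by linarith)
      have e3 := hnear x t ht0 ht1
      have e4 := norm_sub_norm_le (F x) (F x - H (x, t))
      rw [sub_sub_cancel, norm_sub_rev (F x) (H (x, t))] at e4
      have e5 : t * ρ x ≤ ρ x := by nlinarith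
      linarith) (fun x t ht0 ht1 hgx h0 => by
      rcases eq_or_lt_of_le ht0 with ht | ht
      · rw [← ht] at h0 ⊢
        rw [hH0] at h0
        intro w
        obtain ⟨v, hv⟩ := h.regular x hgx h0 w
        refine ⟨v, ?_⟩
        have e1 := dx_line hH x v 0
        have e2 : (fun b : ℝ => H (x + b • v, (0 : ℝ))) = fun b => F (x + b • v) :=
          funext fun b => hH0 _
        rw [e2] at e1
        have e3 : HasDerivAt (fun b : ℝ => F (x + b • v)) (fderiv ℝ F x v) 0 := by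
          have e4 : HasDerivAt (fun h : ℝ => x + h • v) ((1 : ℝ) • v) 0 :=
            ((hasDerivAt_id (0 : ℝ)).smul_const v).const_add x
          rw [one_smul] at e4
          have e5 : HasFDerivAt F (fderiv ℝ F x) (x + (0 : ℝ) • v) := by
            rw [zero_smul, add_zero]
            exact ((h.smooth.differentiable (by simp)) _).hasFDerivAt
          exact e5.comp_hasDerivAt (0 : ℝ) e4
        rw [e1.unique e3]
        exact hv
      · have hρx : 0 < ρ x := hc.trans_le (hcρ x)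
        have e1 := hnear x t ht0 ht1
        rw [h0, zero_sub, norm_neg] at e1
        have e2 : 0 < t * ρ x := by positivity
        have e3 := (h.sub x hgx (t * ρ x) e2 (by nlinarith) (by linarith)).mono hκ' hm.le e2.le
        refine moll_surj hκ0 hκ hm hm1 h.smooth h.lip hρ.smooth ht ht1 hρx (fun y => ?_) e3 hH
          (fun y => by rw [hHd])
        refine (hρ.lip y x).trans (mul_le_mul_of_nonneg_right ?_ (norm_nonneg _))
        exact mul_le_mul_of_nonneg_right hκ' hm.le)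
  refine ⟨Φ, Ψ, h1, h2, h3, h4, h5, fun x hx => h6 x (not_lt.1 fun h => hx (hD x h)), fun x => ?_⟩
  have h8 := h7 x
  rw [hH0] at h8
  have h9 : H (Φ x, 1) = MW F (Φ x, ρ (Φ x) / 5) := by
    rw [hHd]
    simp only [one_mul]
  rw [h9] at h8
  exact h8

theorem MW_comb {F G : V → W} (hF : Continuous F) (hG : Continuous G) (a b : ℝ) (q : V × ℝ) :
    MW (fun x => a • F x + b • G x) q = a • MW F q + b • MW G q := by
  have i1 : Integrable fun s : V => kr s • F (q.1 + q.2 • s) := kr_int_w (hF.comp (by fun_prop))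
  have i2 : Integrable fun s : V => kr s • G (q.1 + q.2 • s) := kr_int_w (hG.comp (by fun_prop))
  have j1 : Integrable fun s : V => a • (kr s • F (q.1 + q.2 • s)) := i1.smul a
  have j2 : Integrable fun s : V => b • (kr s • G (q.1 + q.2 • s)) := i2.smul b
  unfold MW
  rw [← integral_smul, ← integral_smul, ← integral_add j1 j2]
  congr 1
  funext s
  rw [smul_add, smul_comm, smul_comm (kr s) b]

/-- the isotopy between the mollifications -/
theorem iso2 {Γ : Set (Pr V W)} {κ κ' κ₂ m : ℝ} {K D : Set V} {ρ : V → ℝ} {F G : V → W}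
    {g k : V → ℝ} (hκ0 : 0 < κ) (hκ' : 0 < κ') (hκ₂ : 0 < κ₂) (hκs : κ' + 4 * κ₂ ≤ κ)
    (hκ1 : κ ≤ 1 / 64) (hκ : PosP V κ) (hm : 0 < m) (hm1 : m ≤ 1) (hK : IsCompact K)
    (hρ : ScT Γ (κ' * m) ρ) (h : Cls Γ κ' m K ρ F g) (hG : Cls Γ κ' m K ρ G k)
    (hn : Near κ₂ m ρ F g G k) (hD : ∀ x, g x < 0 → x ∈ D) :
    EqvT Γ D {x | MW F (x, ρ x / 5) = 0 ∧ g x < 0} {x | MW G (x, ρ x / 5) = 0 ∧ g x < 0} := by
  obtain ⟨c, hc, hcρ⟩ := hρ.low
  have hκ₂1 : κ₂ * m ≤ 1 / 64 := by nlinarith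
  have hκ'1 : κ' * m ≤ 1 / 64 := by nlinarith
  have hκ'0 : 0 ≤ κ' * m := by positivity
  have hκ₂0 : 0 ≤ κ₂ * m := by positivity
  obtain ⟨L, hLd⟩ : ∃ L : ℝ → V → W, L = fun t x => (1 - t) • F x + t • G x := ⟨_, rfl⟩
  have hLs : ∀ t, ContDiff ℝ ∞ (L t) := fun t => by
    rw [hLd]
    exact (contDiff_const.smul h.smooth).add (contDiff_const.smul hG.smooth)
  have hLl : ∀ t, 0 ≤ t → t ≤ 1 → ∀ x y, ‖L t x - L t y‖ ≤ ‖x - y‖ := by
    intro t ht0 ht1 x y
    rw [hLd]
    simp only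
    have e1 : (1 - t) • F x + t • G x - ((1 - t) • F y + t • G y) =
        (1 - t) • (F x - F y) + t • (G x - G y) := by
      rw [smul_sub, smul_sub]
      abel
    rw [e1]
    refine (norm_add_le _ _).trans ?_
    rw [norm_smul, norm_smul, Real.norm_of_nonneg (by linarith : 0 ≤ 1 - t),
      Real.norm_of_nonneg ht0]
    have e2 := h.lip x y
    have e3 := hG.lip x y
    nlinarith
  have hLF : ∀ t x, L t x - F x = t • (G x - F x) := by
    intro t x
    rw [hLd]
    simp only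
    rw [sub_smul, one_smul, smul_sub]
    abel
  obtain ⟨H, hHd⟩ : ∃ H : V × ℝ → W, H = fun q => (1 - q.2) • MW F (q.1, ρ q.1 / 5) +
      q.2 • MW G (q.1, ρ q.1 / 5) := ⟨_, rfl⟩
  have hH : ContDiff ℝ ∞ H := by
    rw [hHd]
    have e1 : ContDiff ℝ ∞ fun q : V × ℝ => (q.1, ρ q.1 / 5) :=
      contDiff_fst.prodMk ((hρ.smooth.comp contDiff_fst).div_const _)
    exact ((contDiff_const.sub contDiff_snd).smul ((MW_smooth h.smooth).comp e1)).add
      (contDiff_snd.smul ((MW_smooth hG.smooth).comp e1))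
  have hHL : ∀ x t, H (x, t) = MW (L t) (x, ρ x / 5) := by
    intro x t
    rw [hHd, hLd]
    exact (MW_comb h.smooth.continuous hG.smooth.continuous _ _ _).symm
  have hnear : ∀ x t, 0 ≤ t → t ≤ 1 → ‖H (x, t) - L t x‖ ≤ ρ x / 5 := by
    intro x t ht0 ht1
    rw [hHL]
    exact MW_near (hLs t).continuous (hLl t ht0 ht1) x
      (div_nonneg (hc.le.trans (hcρ x)) (by norm_num))
  have hclose : ∀ x t, 0 ≤ t → t ≤ 1 → g x < 3 / 2 * ρ x → ‖L t x - F x‖ ≤ 1 / 64 * ρ x := by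
    intro x t ht0 ht1 hx
    rw [hLF, norm_smul, Real.norm_of_nonneg ht0, norm_sub_rev]
    have e1 := (hn x (Or.inl hx)).1
    have e2 := norm_nonneg (F x - G x)
    have e3 := hcρ x
    nlinarith
  obtain ⟨Φ, Ψ, h1, h2, h3, h4, h5, h6, h7⟩ := level_isoW Γ H hH (fun γ hγ x t => by
      rw [hHd]
      simp only
      rw [hρ.inv γ hγ, MW_equi h.smooth.continuous (h.equi γ hγ),
        MW_equi hG.smooth.continuous (hG.equi γ hγ), map_add, map_smul, map_smul])
    g h.smooth' h.inv K hK hc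
    (fun x hx => h.win x (by have := hcρ x; linarith)) (fun x t ht0 ht1 hlt => by
      by_contra hng
      rw [not_le] at hng
      have e1 := hcρ x
      have e2 := h.sep x (by linarith)
      have e3 := hnear x t ht0 ht1
      have e0 := hclose x t ht0 ht1 (by linarith [(abs_lt.1 hng).2])
      have e4 := norm_sub_norm_le (F x) (F x - H (x, t))
      rw [sub_sub_cancel] at e4
      have e6 : ‖F x - H (x, t)‖ ≤ ‖H (x, t) - L t x‖ + ‖L t x - F x‖ := by
        rw [norm_sub_rev (F x)]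
        have : H (x, t) - F x = (H (x, t) - L t x) + (L t x - F x) := by abel
        rw [this]
        exact norm_add_le _ _
      linarith) (fun x t ht0 ht1 hgx h0 => by
      have hρx : 0 < ρ x := hc.trans_le (hcρ x)
      have e1 := hnear x t ht0 ht1
      rw [h0, zero_sub, norm_neg] at e1
      have e2 := hclose x t ht0 ht1 (by linarith)
      have e3 : ‖F x‖ < ρ x := by
        have e4 := norm_sub_norm_le (F x) (L t x)
        rw [norm_sub_rev] at e4
        linarith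
      obtain ⟨P, hP, hu⟩ := h.sub x hgx (ρ x) hρx le_rfl e3
      have hball : ∀ y, ‖y - x‖ ≤ ρ x → ‖F y - G y‖ ≤ 2 * κ₂ * m * ρ x := by
        intro y hy
        have a1 := h.lip' y x
        have a2 := hρ.lip y x
        have a3 := abs_le.1 a1
        have a4 := abs_le.1 a2
        have a5 : κ' * m * ‖y - x‖ ≤ 1 / 64 * ρ x := by
          have := norm_nonneg (y - x)
          nlinarith
        have a6 := (hn y (Or.inl (by linarith))).1
        have a7 : κ₂ * m * ρ y ≤ κ₂ * m * (2 * ρ x) :=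
          mul_le_mul_of_nonneg_left (by linarith) hκ₂0
        linarith
      have hsub : Sub κ m (L t) x (1 * ρ x) := by
        refine ⟨P, hP, fun u huP hu1 => ?_⟩
        obtain ⟨ℓ, hℓ, hinc⟩ := hu u huP hu1
        refine ⟨ℓ, hℓ, fun y s hs hy hy' => ?_⟩
        rw [one_mul] at hy hy' ⊢
        have b1 := hinc y s hs hy hy'
        have b2 : L t (y + s • u) - L t y = (F (y + s • u) - F y) +
            t • ((G (y + s • u) - F (y + s • u)) - (G y - F y)) := by
          have b3 := hLF t (y + s • u)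
          have b4 := hLF t y
          rw [sub_eq_iff_eq_add] at b3 b4
          rw [b3, b4]
          module
        have b3 : |ℓ ((G (y + s • u) - F (y + s • u)) - (G y - F y))| ≤ 4 * κ₂ * m * ρ x := by
          have c1 := ℓ.le_opNorm ((G (y + s • u) - F (y + s • u)) - (G y - F y))
          rw [Real.norm_eq_abs] at c1
          have c2 := norm_sub_le (G (y + s • u) - F (y + s • u)) (G y - F y)
          have c3 := hball _ hy
          have c4 := hball _ hy'
          rw [norm_sub_rev] at c3 c4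
          have c5 := norm_nonneg ((G (y + s • u) - F (y + s • u)) - (G y - F y))
          nlinarith
        rw [b2, map_add, map_smul, smul_eq_mul]
        have b4 := abs_le.1 b3
        have b5 : 0 ≤ 4 * κ₂ * m * ρ x := by positivity
        have b6 : -(4 * κ₂ * m * ρ x) ≤
            t * ℓ ((G (y + s • u) - F (y + s • u)) - (G y - F y)) := by nlinarith
        have b7 : (κ' + 4 * κ₂) * (m * ρ x) ≤ κ * (m * ρ x) :=
          mul_le_mul_of_nonneg_right hκs (by positivity)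
        nlinarith
      refine moll_surj hκ0 hκ hm hm1 (hLs t) (hLl t ht0 ht1) hρ.smooth one_pos le_rfl hρx
        (fun y => ?_) hsub hH (fun y => by rw [hHL, one_mul])
      refine (hρ.lip y x).trans (mul_le_mul_of_nonneg_right ?_ (norm_nonneg _))
      exact mul_le_mul_of_nonneg_right (by linarith) hm.le)
  refine ⟨Φ, Ψ, h1, h2, h3, h4, h5, fun x hx => h6 x (not_lt.1 fun h => hx (hD x h)), fun x => ?_⟩
  have h8 := h7 x
  rw [hHd] at h8
  simp only [sub_zero, one_smul, zero_smul, add_zero, sub_self, zero_add] at h8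
  exact h8

/-- the windows do not matter -/
theorem win_iff {Γ : Set (Pr V W)} {κ' κ₂ m : ℝ} {K : Set V} {ρ : V → ℝ} {F G : V → W}
    {g k : V → ℝ} (hκ₂ : 0 < κ₂) (hκ₂1 : κ₂ ≤ 1 / 64) (hm : 0 < m) (hm1 : m ≤ 1)
    (hρ : ScT Γ (κ' * m) ρ) (h : Cls Γ κ' m K ρ F g) (hG : Cls Γ κ' m K ρ G k)
    (hn : Near κ₂ m ρ F g G k) :
    ({x | MW G (x, ρ x / 5) = 0 ∧ g x < 0} : Set V) = {x | MW G (x, ρ x / 5) = 0 ∧ k x < 0} := by
  obtain ⟨c, hc, hcρ⟩ := hρ.low
  ext x
  have hρx : 0 < ρ x := hc.trans_le (hcρ x)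
  have hκm : κ₂ * m * ρ x ≤ 1 / 64 * ρ x :=
    mul_le_mul_of_nonneg_right (by nlinarith) hρx.le
  constructor
  · rintro ⟨h0, hgx⟩
    refine ⟨h0, ?_⟩
    have e1 := MW_near hG.smooth.continuous hG.lip x (c := ρ x / 5) (by positivity)
    rw [h0, zero_sub, norm_neg] at e1
    obtain ⟨e2, e3⟩ := hn x (Or.inl (by linarith))
    have e4 := abs_le.1 e3
    by_contra hk
    have e5 := hG.sep x (by rw [abs_of_nonneg (not_lt.1 hk)]; linarith)
    linarith
  · rintro ⟨h0, hkx⟩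
    refine ⟨h0, ?_⟩
    have e1 := MW_near hG.smooth.continuous hG.lip x (c := ρ x / 5) (by positivity)
    rw [h0, zero_sub, norm_neg] at e1
    obtain ⟨e2, e3⟩ := hn x (Or.inr (by linarith))
    have e4 := abs_le.1 e3
    by_contra hk
    have e5 := h.sep x (by rw [abs_of_nonneg (not_lt.1 hk)]; linarith)
    have e6 := norm_sub_norm_le (F x) (G x)
    linarith

/-- two close functions have equivalent zero sets -/
theorem mainT (V : Type) [NormedAddCommGroup V] [InnerProductSpace ℝ V] [FiniteDimensional ℝ V] :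
    ∃ κ : ℝ, 0 < κ ∧ κ ≤ 1 / 64 ∧ ∀ (W : Type) [NormedAddCommGroup W] [InnerProductSpace ℝ W]
      [FiniteDimensional ℝ W] (Γ : Set (Pr V W)) (m : ℝ) (K D : Set V) (ρ : V → ℝ) (F G : V → W)
      (g k : V → ℝ), 0 < m → m ≤ 1 → IsCompact K → ScT Γ (κ * m) ρ → Cls Γ κ m K ρ F g →
      Cls Γ κ m K ρ G k → (∀ x, g x < 0 → x ∈ D) → (∀ x, k x < 0 → x ∈ D) →
      Near κ m ρ F g G k →
      EqvT Γ D {x | F x = 0 ∧ g x < 0} {x | G x = 0 ∧ k x < 0} := by
  borelize V
  obtain ⟨κ, hκ0, hκ1, hκ⟩ := coarse_posV (V := V)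
  refine ⟨κ / 5, by positivity, by linarith, ?_⟩
  intro W _ _ _ Γ m K D ρ F G g k hm hm1 hK hρ hF hG hDg hDk hn
  have e1 := iso1 hκ0 (by linarith) hκ hm hm1 hK hρ hF hDg
  have e2 := iso2 hκ0 (by positivity) (by positivity) (by linarith) hκ1 hκ hm hm1 hK hρ hF hG hn hDg
  have e3 := iso1 hκ0 (by linarith) hκ hm hm1 hK hρ hG hDk
  rw [win_iff (by positivity) (by linarith) hm hm1 hρ hF hG hn] at e2
  exact (e1.trans e2).trans e3.symm

/-- **recognition** by values at a set of points -/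
theorem recogT (V : Type) [NormedAddCommGroup V] [InnerProductSpace ℝ V] [FiniteDimensional ℝ V] :
    ∃ κ : ℝ, 0 < κ ∧ κ ≤ 1 / 64 ∧ ∀ (W : Type) [NormedAddCommGroup W] [InnerProductSpace ℝ W]
      [FiniteDimensional ℝ W] (Γ : Set (Pr V W)) (m : ℝ) (K D : Set V) (ρ : V → ℝ) (F G : V → W)
      (g k : V → ℝ), 0 < m → m ≤ 1 → IsCompact K → ScT Γ (κ * m) ρ → Cls Γ κ m K ρ F g →
      Cls Γ κ m K ρ G k → (∀ x, g x < 0 → x ∈ D) → (∀ x, k x < 0 → x ∈ D) →
      ∀ T : Set V, (∀ y, ∃ p ∈ T, ‖p - y‖ ≤ κ * m * ρ y) →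
      (∀ p ∈ T, (‖F p - G p‖ ≤ κ * m * ρ p ∧ |g p - k p| ≤ κ * m * ρ p) ∨
        (2 * ρ p ≤ g p ∧ 2 * ρ p ≤ k p)) →
      EqvT Γ D {x | F x = 0 ∧ g x < 0} {x | G x = 0 ∧ k x < 0} := by
  obtain ⟨κ, hκ0, hκ1, key⟩ := mainT V
  refine ⟨κ / 4, by positivity, by linarith, ?_⟩
  intro W _ _ _ Γ m K D ρ F G g k hm hm1 hK hρ hF hG hDg hDk T hT hTs
  obtain ⟨c, hc, hcρ⟩ := hρ.low
  have hmono : ∀ {F : V → W} {g : V → ℝ}, Cls Γ (κ / 4) m K ρ F g → Cls Γ κ m K ρ F g :=
    fun {F g} h => ⟨h.smooth, h.smooth', h.lip, h.lip', h.equi, h.inv, h.win, h.sep, h.regular,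
      fun x hx r hr hr' hF => (h.sub x hx r hr hr' hF).mono (by linarith) hm.le hr.le⟩
  refine key W Γ m K D ρ F G g k hm hm1 hK ⟨hρ.smooth, hρ.inv, hρ.low, fun x y => ?_⟩
    (hmono hF) (hmono hG) hDg hDk fun y hy => ?_
  · refine (hρ.lip x y).trans (mul_le_mul_of_nonneg_right ?_ (norm_nonneg _))
    exact mul_le_mul_of_nonneg_right (by linarith) hm.le
  · have hρy : 0 < ρ y := hc.trans_le (hcρ y)
    obtain ⟨p, hp, hpy⟩ := hT y
    have hκm : κ / 4 * m ≤ 1 / 256 := by nlinarith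
    have hκm0 : 0 ≤ κ / 4 * m := by positivity
    have e1 : ‖p - y‖ ≤ 1 / 256 * ρ y := hpy.trans (mul_le_mul_of_nonneg_right hκm hρy.le)
    have e2 := abs_le.1 (hρ.lip p y)
    have e3 : κ / 4 * m * ‖p - y‖ ≤ 1 / 256 * ρ y := by
      have := norm_nonneg (p - y)
      nlinarith
    have e4 := abs_le.1 (hF.lip' p y)
    have e5 := abs_le.1 (hG.lip' p y)
    have e6 : ‖F p - G p‖ ≤ κ / 4 * m * ρ p ∧ |g p - k p| ≤ κ / 4 * m * ρ p := by
      rcases hTs p hp with h1 | ⟨h1, h2⟩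
      · exact h1
      · exfalso
        rcases hy with h3 | h3 <;> linarith
    have e7 : κ / 4 * m * ρ p ≤ κ / 4 * m * (2 * ρ y) :=
      mul_le_mul_of_nonneg_left (by linarith) hκm0
    have e8 : κ * m * ρ y = 4 * (κ / 4 * m * ρ y) := by ring
    have e9 : κ / 4 * m * (2 * ρ y) = 2 * (κ / 4 * m * ρ y) := by ring
    rw [e8]
    rw [e9] at e7
    constructor
    · have f1 : F y - G y = (F y - F p) + (F p - G p) + (G p - G y) := by abel
      have f2 := hF.lip y p
      have f3 := hG.lip p y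
      rw [norm_sub_rev y p] at f2
      rw [f1]
      have f4 := norm_add_le ((F y - F p) + (F p - G p)) (G p - G y)
      have f5 := norm_add_le (F y - F p) (F p - G p)
      linarith [e6.1]
    · have f6 := abs_le.1 e6.2
      rw [abs_le]
      constructor <;> linarith [e4.1, e4.2, e5.1, e5.2, f6.1, f6.2]

end Pool.Agent.K7.H28.TR
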