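import Pool.Agent.K7.H28.TR.T6

/-!
# Every regular zero set belongs to one of the classes
-/

set_option autoImplicit false

open Set Filter Topology Metric Function MeasureTheory
open scoped ContDiff NNReal

noncomputable section

namespace Pool.Agent.K7.H28.TR

open Pool.Agent.K7.H28.EQ

variable {V W : Type} [NormedAddCommGroup V] [InnerProductSpace ℝ V] [FiniteDimensional ℝ V]
  [NormedAddCommGroup W] [InnerProductSpace ℝ W] [FiniteDimensional ℝ W]

/-- smooth submersions are coarse submersions at small scales -/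
theorem sub_local {F : V → W} (hF : ContDiff ℝ ∞ F) {x : V} (hx : Surjective (fderiv ℝ F x)) :
    ∃ m δ : ℝ, 0 < m ∧ 0 < δ ∧ ∀ (κ m' : ℝ), 0 ≤ κ → 0 < m' → m' ≤ m →
      ∀ (x' : V) (r : ℝ), ‖x' - x‖ ≤ δ → 0 < r → r ≤ δ → Sub κ m' F x' r := by
  classical
  obtain ⟨A, hA⟩ : ∃ A : V →L[ℝ] W, A = fderiv ℝ F x := ⟨_, rfl⟩
  rw [← hA] at hx
  obtain ⟨P, hP⟩ : ∃ P : Submodule ℝ V, P = (LinearMap.ker (A : V →ₗ[ℝ] W))ᗮ := ⟨_, rfl⟩
  have hdim : Module.finrank ℝ P = Module.finrank ℝ W := by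
    have h1 := (LinearMap.ker (A : V →ₗ[ℝ] W)).finrank_add_finrank_orthogonal
    have h2 := LinearMap.finrank_range_add_finrank_ker (A : V →ₗ[ℝ] W)
    have h3 : LinearMap.range (A : V →ₗ[ℝ] W) = ⊤ := LinearMap.range_eq_top.2 hx
    rw [h3, finrank_top] at h2
    rw [hP]
    omega
  have hinj : ∀ u ∈ P, A u = 0 → u = 0 := by
    intro u hu h0
    have h1 : u ∈ LinearMap.ker (A : V →ₗ[ℝ] W) := h0
    rw [hP] at hu
    have h2 := Submodule.inner_right_of_mem_orthogonal h1 hu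
    exact inner_self_eq_zero.1 h2
  -- a lower bound
  have hlow : ∃ m : ℝ, 0 < m ∧ ∀ u ∈ P, ‖u‖ = 1 → 2 * m ≤ ‖A u‖ := by
    obtain ⟨S, hS⟩ : ∃ S : Set V, S = (P : Set V) ∩ sphere 0 1 := ⟨_, rfl⟩
    have hSc : IsCompact S := by
      rw [hS, inter_comm]
      exact (isCompact_sphere (0 : V) 1).inter_right P.closed_of_finiteDimensional
    rcases S.eq_empty_or_nonempty with he | hne
    · refine ⟨1, one_pos, fun u hu hu1 => ?_⟩
      have : u ∈ S := by rw [hS]; exact ⟨hu, by simpa using hu1⟩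
      rw [he] at this
      exact absurd this (notMem_empty u)
    · obtain ⟨u₀, hu₀, hmin⟩ := hSc.exists_isMinOn hne A.continuous.norm.continuousOn
      rw [hS] at hu₀
      have h1 : 0 < ‖A u₀‖ := by
        rw [norm_pos_iff]
        intro h
        have h2 := hinj u₀ hu₀.1 h
        have h3 := hu₀.2
        rw [h2, mem_sphere_zero_iff_norm, norm_zero] at h3
        exact zero_ne_one h3
      refine ⟨‖A u₀‖ / 2, by positivity, fun u hu hu1 => ?_⟩
      have h2 : ‖A u₀‖ ≤ ‖A u‖ := hmin (by rw [hS]; exact ⟨hu, by simpa using hu1⟩)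
      linarith
  obtain ⟨m, hm, hmA⟩ := hlow
  have hcont : Continuous (fderiv ℝ F) := hF.continuous_fderiv (by simp)
  have hev : ∀ᶠ y in 𝓝 x, ‖fderiv ℝ F y - A‖ < m := by
    have h1 : Continuous fun y => ‖fderiv ℝ F y - A‖ := (hcont.sub continuous_const).norm
    refine h1.continuousAt.eventually_lt_const ?_
    change ‖fderiv ℝ F x - A‖ < m
    rw [hA, sub_self, norm_zero]
    exact hm
  obtain ⟨η, hη, hb⟩ := Metric.eventually_nhds_iff_ball.1 hev
  refine ⟨m, η / 3, hm, by positivity, fun κ m' hκ hm' hmm x' r hx' hr hrη => ?_⟩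
  refine ⟨P, hdim, fun u hu hu1 => ?_⟩
  have hAu : 0 < ‖A u‖ := lt_of_lt_of_le (by positivity) (hmA u hu hu1)
  refine ⟨(‖A u‖)⁻¹ • innerSL ℝ (A u), ?_, fun y t ht hy hy' => ?_⟩
  · rw [norm_smul, innerSL_apply_norm, norm_inv, norm_norm, inv_mul_cancel₀ hAu.ne']
  · -- the function along the segment
    obtain ⟨ℓ, hℓ⟩ : ∃ ℓ : W →L[ℝ] ℝ, ℓ = (‖A u‖)⁻¹ • innerSL ℝ (A u) := ⟨_, rfl⟩
    have hℓ1 : ‖ℓ‖ ≤ 1 := by
      rw [hℓ, norm_smul, innerSL_apply_norm, norm_inv, norm_norm, inv_mul_cancel₀ hAu.ne']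
    have hℓA : 2 * m ≤ ℓ (A u) := by
      have h1 : ℓ (A u) = ‖A u‖ := by
        rw [hℓ, ContinuousLinearMap.smul_apply, innerSL_apply_apply, real_inner_self_eq_norm_sq,
          smul_eq_mul]
        field_simp
      rw [h1]
      exact hmA u hu hu1
    rw [← hℓ]
    have hd : ∀ s ∈ Icc (0 : ℝ) t, HasDerivWithinAt (fun s => ℓ (F (y + s • u)))
        (ℓ (fderiv ℝ F (y + s • u) u)) (Icc 0 t) s := by
      intro s _
      have e1 : HasDerivAt (fun h : ℝ => y + h • u) ((1 : ℝ) • u) s :=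
        ((hasDerivAt_id s).smul_const u).const_add y
      rw [one_smul] at e1
      have e2 : HasFDerivAt F (fderiv ℝ F (y + s • u)) (y + s • u) :=
        ((hF.differentiable (by simp)) _).hasFDerivAt
      exact (ℓ.hasFDerivAt.comp_hasDerivAt s (e2.comp_hasDerivAt s e1)).hasDerivWithinAt
    have hin : ∀ s ∈ Icc (0 : ℝ) t, y + s • u ∈ ball x η := by
      intro s hs
      rw [mem_ball, dist_eq_norm]
      have e1 : y + s • u - x' = (1 - s / t) • (y - x') + (s / t) • (y + t • u - x') := by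
        have e2 : (s / t) • (t • u) = s • u := by
          rw [smul_smul, div_mul_cancel₀ _ ht.ne']
        have e3 : (s / t) • (y + t • u - x') = (s / t) • (y - x') + (s / t) • (t • u) := by
          rw [← smul_add]
          congr 1
          abel
        rw [e3, e2, sub_smul, one_smul]
        abel
      have e2 : ‖y + s • u - x'‖ ≤ r := by
        rw [e1]
        have h0 : 0 ≤ s / t := div_nonneg hs.1 ht.le
        have h1 : s / t ≤ 1 := by
          rw [div_le_one ht]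
          exact hs.2
        refine (norm_add_le _ _).trans ?_
        rw [norm_smul, norm_smul, Real.norm_of_nonneg (by linarith : 0 ≤ 1 - s / t),
          Real.norm_of_nonneg h0]
        nlinarith
      have e3 : y + s • u - x = (y + s • u - x') + (x' - x) := by abel
      rw [e3]
      refine (norm_add_le _ _).trans_lt ?_
      linarith
    have hge : ∀ s ∈ Icc (0 : ℝ) t, m ≤ ℓ (fderiv ℝ F (y + s • u) u) := by
      intro s hs
      have e1 := hb _ (hin s hs)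
      have e2 : ℓ (fderiv ℝ F (y + s • u) u) = ℓ (A u) + ℓ ((fderiv ℝ F (y + s • u) - A) u) := by
        rw [ContinuousLinearMap.sub_apply, map_sub]
        ring
      have e3 : |ℓ ((fderiv ℝ F (y + s • u) - A) u)| ≤ m := by
        have e4 := ℓ.le_opNorm ((fderiv ℝ F (y + s • u) - A) u)
        have e5 := (fderiv ℝ F (y + s • u) - A).le_opNorm u
        rw [hu1, mul_one] at e5
        rw [Real.norm_eq_abs] at e4
        have e6 := norm_nonneg ((fderiv ℝ F (y + s • u) - A) u)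
        nlinarith
      rw [e2]
      linarith [(abs_le.1 e3).1]
    have key : m * (t - 0) ≤ ℓ (F (y + t • u)) - ℓ (F (y + (0 : ℝ) • u)) := by
      refine Convex.mul_sub_le_image_sub_of_le_deriv (D := Icc 0 t) (convex_Icc 0 t)
        (f := fun s => ℓ (F (y + s • u))) (fun s hs => (hd s hs).continuousWithinAt) ?_ ?_ 0
        ⟨le_rfl, ht.le⟩ t ⟨ht.le, le_rfl⟩ ht.le
      · intro s hs
        exact ((hd s (interior_subset hs)).differentiableWithinAt).mono interior_subset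
      · intro s hs
        have h1 := (hd s (interior_subset hs)).hasDerivAt (mem_interior_iff_mem_nhds.1 hs)
        rw [h1.deriv]
        exact hge s (interior_subset hs)
    rw [zero_smul, add_zero, sub_zero] at key
    rw [map_sub]
    have h1 : m' * t ≤ m * t := mul_le_mul_of_nonneg_right hmm ht.le
    have h2 : 0 ≤ κ * m' * r := by positivity
    linarith

/-- every regular pair belongs to one of the classes, after multiplication by a constant -/
theorem exhaustE {f : V → W} {h : V → ℝ} (hf : ContDiff ℝ ∞ f) (hh : ContDiff ℝ ∞ h)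
    {L B R c : ℝ} (hL : 0 ≤ L) (hfL : ∀ x y, ‖f x - f y‖ ≤ L * ‖x - y‖)
    (hhL : ∀ x y, |h x - h y| ≤ L * ‖x - y‖) (hfB : ∀ x, ‖f x‖ ≤ B) (hhB : ∀ x, |h x| ≤ B)
    (hc : 0 < c) (hwin : ∀ x, h x < c → ‖x‖ ≤ R) (hsep : ∀ x, |h x| < c → c ≤ ‖f x‖)
    (hreg : ∀ x, h x < 0 → f x = 0 → Surjective (fderiv ℝ f x)) {κ : ℝ} (hκ : 0 < κ) :
    ∃ (m b ρ₀ l : ℝ), 0 < m ∧ m ≤ 1 ∧ 0 < ρ₀ ∧ 0 < l ∧ (∀ x, ‖l • f x‖ ≤ b) ∧
      (∀ x, |l * h x| ≤ b) ∧ (∀ x, l * h x < 2 * ρ₀ → ‖x‖ ≤ b) ∧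
      ∀ Γ : Set (Pr V W), (∃ γ ∈ Γ, ∀ x, act γ.1 x = x) →
        (∀ γ ∈ Γ, ∀ x, f (act γ.1 x) = γ.2 (f x)) → (∀ γ ∈ Γ, ∀ x, h (act γ.1 x) = h x) →
        Cls Γ κ m (closedBall 0 b) (fun _ => ρ₀) (fun x => l • f x) (fun x => l * h x) := by
  classical
  obtain ⟨l, hl⟩ : ∃ l : ℝ, l = 1 / (L + 1) := ⟨_, rfl⟩
  have hl0 : 0 < l := by rw [hl]; positivity
  have hlL : l * L ≤ 1 := by
    rw [hl, one_div_mul_eq_div, div_le_one (by positivity)]
    linarith
  obtain ⟨F, hFd⟩ : ∃ F : V → W, F = fun x => l • f x := ⟨_, rfl⟩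
  have hFs : ContDiff ℝ ∞ F := by rw [hFd]; exact contDiff_const.smul hf
  have hFder : ∀ x, fderiv ℝ F x = l • fderiv ℝ f x := by
    intro x
    rw [hFd]
    exact fderiv_const_smul ((hf.differentiable (by simp)) x) l
  obtain ⟨M, hMd⟩ : ∃ M : Set V, M = {x | f x = 0 ∧ h x < 0} := ⟨_, rfl⟩
  have hMc : IsCompact M := by
    have h1 : M = closedBall 0 R ∩ ({x | f x = 0} ∩ {x | h x ≤ 0}) := by
      rw [hMd]
      ext x
      constructor
      · rintro ⟨h1, h2⟩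
        exact ⟨mem_closedBall_zero_iff.2 (hwin x (h2.trans hc)), h1, h2.le⟩
      · rintro ⟨_, h1, h2⟩
        refine ⟨h1, lt_of_le_of_ne h2 fun h3 => ?_⟩
        have h4 := hsep x (by rw [h3, abs_zero]; exact hc)
        have h5 : f x = 0 := h1
        rw [h5, norm_zero] at h4
        linarith
    rw [h1]
    exact (isCompact_closedBall _ _).inter_right ((isClosed_eq hf.continuous continuous_const).inter
      (isClosed_le hh.continuous continuous_const))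
  have hFsurj : ∀ x ∈ M, Surjective (fderiv ℝ F x) := by
    intro x hx w
    rw [hMd] at hx
    obtain ⟨v, hv⟩ := hreg x hx.2 hx.1 (l⁻¹ • w)
    refine ⟨v, ?_⟩
    rw [hFder x, ContinuousLinearMap.smul_apply, hv, smul_smul, mul_inv_cancel₀ hl0.ne',
      one_smul]
  have hcover : ∃ (m δ : ℝ) (N : Set V), 0 < m ∧ 0 < δ ∧ IsOpen N ∧ M ⊆ N ∧
      ∀ x ∈ N, ∀ m', 0 < m' → m' ≤ m → ∀ r, 0 < r → r ≤ δ → Sub κ m' F x r := by
    refine hMc.induction_on (p := fun S => ∃ (m δ : ℝ) (N : Set V), 0 < m ∧ 0 < δ ∧ IsOpen N ∧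
      S ⊆ N ∧ ∀ x ∈ N, ∀ m', 0 < m' → m' ≤ m → ∀ r, 0 < r → r ≤ δ → Sub κ m' F x r) ?_ ?_ ?_ ?_
    · exact ⟨1, 1, ∅, one_pos, one_pos, isOpen_empty, subset_rfl, fun x hx => absurd hx
        (notMem_empty x)⟩
    · rintro S S' hSS ⟨m, δ, N, h1, h2, h3, h4, h5⟩
      exact ⟨m, δ, N, h1, h2, h3, hSS.trans h4, h5⟩
    · rintro S S' ⟨m, δ, N, h1, h2, h3, h4, h5⟩ ⟨m', δ', N', h1', h2', h3', h4', h5'⟩
      refine ⟨min m m', min δ δ', N ∪ N', lt_min h1 h1', lt_min h2 h2', h3.union h3',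
        union_subset_union h4 h4', ?_⟩
      rintro x (hx | hx) m'' hm0 hm1 r hr0 hr1
      · exact h5 x hx m'' hm0 (hm1.trans (min_le_left _ _)) r hr0 (hr1.trans (min_le_left _ _))
      · exact h5' x hx m'' hm0 (hm1.trans (min_le_right _ _)) r hr0 (hr1.trans (min_le_right _ _))
    · intro x hx
      obtain ⟨m, δ, hm, hδ, hsub⟩ := sub_local hFs (hFsurj x hx)
      refine ⟨ball x δ, mem_nhdsWithin_of_mem_nhds (ball_mem_nhds x hδ), m, δ, ball x δ, hm, hδ,
        isOpen_ball, subset_rfl, fun x' hx' m' hm'0 hm' r hr hr' => ?_⟩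
      rw [mem_ball, dist_eq_norm] at hx'
      exact hsub κ m' hκ.le hm'0 hm' x' r hx'.le hr hr'
  obtain ⟨m, δ, N, hm, hδ, hN, hMN, hsub⟩ := hcover
  have hlowZ : ∃ ε : ℝ, 0 < ε ∧ ∀ x, h x < 0 → x ∉ N → ε ≤ ‖f x‖ := by
    obtain ⟨A, hA⟩ : ∃ A : Set V, A = closedBall 0 R ∩ ({x | h x ≤ 0} ∩ Nᶜ) := ⟨_, rfl⟩
    have hAc : IsCompact A := by
      rw [hA]
      exact (isCompact_closedBall _ _).inter_right ((isClosed_le hh.continuous
        continuous_const).inter hN.isClosed_compl)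
    have hmem : ∀ x, h x < 0 → x ∉ N → x ∈ A := by
      intro x hx hxN
      rw [hA]
      exact ⟨mem_closedBall_zero_iff.2 (hwin x (hx.trans hc)), hx.le, hxN⟩
    rcases A.eq_empty_or_nonempty with he | hne
    · refine ⟨1, one_pos, fun x hx hxN => ?_⟩
      have h1 := hmem x hx hxN
      rw [he] at h1
      exact absurd h1 (notMem_empty x)
    · obtain ⟨x₀, hx₀, hmin⟩ := hAc.exists_isMinOn hne hf.continuous.norm.continuousOn
      refine ⟨‖f x₀‖, ?_, fun x hx hxN => hmin (hmem x hx hxN)⟩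
      rw [hA] at hx₀
      rw [norm_pos_iff]
      intro h0
      refine hx₀.2.2 (hMN ?_)
      rw [hMd]
      refine ⟨h0, lt_of_le_of_ne hx₀.2.1 fun h3 => ?_⟩
      have h4 := hsep x₀ (by rw [h3, abs_zero]; exact hc)
      rw [h0, norm_zero] at h4
      linarith
  obtain ⟨ε, hε, hεF⟩ := hlowZ
  have hB0 : 0 ≤ B := (norm_nonneg _).trans (hfB 0)
  obtain ⟨ρ₀, hρ₀⟩ : ∃ ρ₀ : ℝ, ρ₀ = min (min δ (l * ε)) (l * c / 2) := ⟨_, rfl⟩
  have hρ0 : 0 < ρ₀ := by
    rw [hρ₀]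
    exact lt_min (lt_min hδ (by positivity)) (by positivity)
  have hρδ : ρ₀ ≤ δ := by rw [hρ₀]; exact (min_le_left _ _).trans (min_le_left _ _)
  have hρε : ρ₀ ≤ l * ε := by rw [hρ₀]; exact (min_le_left _ _).trans (min_le_right _ _)
  have hρc : 2 * ρ₀ ≤ l * c := by
    have : ρ₀ ≤ l * c / 2 := by rw [hρ₀]; exact min_le_right _ _
    linarith
  obtain ⟨b, hb⟩ : ∃ b : ℝ, b = max R (l * B) := ⟨_, rfl⟩
  have hbR : R ≤ b := by rw [hb]; exact le_max_left _ _
  have hbF : l * B ≤ b := by rw [hb]; exact le_max_right _ _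
  have hin : ∀ x, l * h x < 2 * ρ₀ → ‖x‖ ≤ b := by
    intro x hx
    refine (hwin x ?_).trans hbR
    by_contra hn
    have := mul_le_mul_of_nonneg_left (not_lt.1 hn) hl0.le
    linarith
  have hneg : ∀ x, l * h x < 0 → h x < 0 := by
    intro x hx
    by_contra hn
    exact absurd hx (not_lt.2 (mul_nonneg hl0.le (not_lt.1 hn)))
  refine ⟨min m 1, b, ρ₀, l, lt_min hm one_pos, min_le_right _ _, hρ0, hl0, fun x => ?_,
    fun x => ?_, hin, fun Γ hΓ hΓf hΓh => ⟨?_, contDiff_const.mul hh, fun x y => ?_,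
    fun x y => ?_, fun γ hγ x => ?_, fun γ hγ x => ?_, fun x hx => ?_, fun x hx => ?_,
    fun x hgx hFx => ?_, fun x hgx r hr hr' hFx => ?_⟩⟩
  · rw [norm_smul, Real.norm_of_nonneg hl0.le]
    exact (mul_le_mul_of_nonneg_left (hfB x) hl0.le).trans hbF
  · rw [abs_mul, abs_of_pos hl0]
    exact (mul_le_mul_of_nonneg_left (hhB x) hl0.le).trans hbF
  · rw [← hFd]
    exact hFs
  · rw [← smul_sub, norm_smul, Real.norm_of_nonneg hl0.le]
    calc l * ‖f x - f y‖ ≤ l * (L * ‖x - y‖) := mul_le_mul_of_nonneg_left (hfL x y) hl0.le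
      _ = l * L * ‖x - y‖ := by ring
      _ ≤ 1 * ‖x - y‖ := mul_le_mul_of_nonneg_right hlL (norm_nonneg _)
      _ = ‖x - y‖ := one_mul _
  · rw [← mul_sub, abs_mul, abs_of_pos hl0]
    calc l * |h x - h y| ≤ l * (L * ‖x - y‖) := mul_le_mul_of_nonneg_left (hhL x y) hl0.le
      _ = l * L * ‖x - y‖ := by ring
      _ ≤ 1 * ‖x - y‖ := mul_le_mul_of_nonneg_right hlL (norm_nonneg _)
      _ = ‖x - y‖ := one_mul _
  · rw [hΓf γ hγ, map_smul]
  · rw [hΓh γ hγ]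
  · obtain ⟨γ, hγ, hγ1⟩ := hΓ
    refine ⟨γ, hγ, ?_⟩
    rw [hγ1]
    exact mem_closedBall_zero_iff.2 (hin x hx)
  · rw [abs_mul, abs_of_pos hl0] at hx
    rw [norm_smul, Real.norm_of_nonneg hl0.le]
    have h1 : |h x| < c := by
      by_contra hn
      have := mul_le_mul_of_nonneg_left (not_lt.1 hn) hl0.le
      linarith
    have := mul_le_mul_of_nonneg_left (hsep x h1) hl0.le
    linarith
  · rw [← hFd]
    refine hFsurj x ?_
    rw [hMd]
    refine ⟨?_, hneg x hgx⟩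
    rcases smul_eq_zero.1 hFx with h1 | h1
    · exact absurd h1 hl0.ne'
    · exact h1
  · have h1 : x ∈ N := by
      by_contra hn
      have h2 := hεF x (hneg x hgx) hn
      have h3 := mul_le_mul_of_nonneg_left h2 hl0.le
      rw [norm_smul, Real.norm_of_nonneg hl0.le] at hFx
      linarith
    rw [← hFd]
    exact hsub x h1 _ (lt_min hm one_pos) (min_le_left _ _) r hr (hr'.trans hρδ)

/-- every compact submanifold cut out by a smooth map near it, with surjective derivative, is the zero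
set of a regular pair -/
theorem exists_pair {f : V → W} (hf : ContDiff ℝ ∞ f) {M U : Set V} (hM : IsCompact M)
    (hU : IsOpen U) (hMU : M ⊆ U) (h0 : ∀ x ∈ U, f x = 0 ↔ x ∈ M)
    (hreg : ∀ x ∈ M, Surjective (fderiv ℝ f x)) :
    ∃ (F : V → W) (g : V → ℝ) (L B R c : ℝ), ContDiff ℝ ∞ F ∧ ContDiff ℝ ∞ g ∧ 0 ≤ L ∧
      (∀ x y, ‖F x - F y‖ ≤ L * ‖x - y‖) ∧ (∀ x y, |g x - g y| ≤ L * ‖x - y‖) ∧
      (∀ x, ‖F x‖ ≤ B) ∧ (∀ x, |g x| ≤ B) ∧ 0 < c ∧ (∀ x, g x < c → ‖x‖ ≤ R) ∧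
      (∀ x, |g x| < c → c ≤ ‖F x‖) ∧ (∀ x, g x < 0 → F x = 0 → Surjective (fderiv ℝ F x)) ∧
      {x | F x = 0 ∧ g x < 0} = M ∧ ∀ x ∈ M, ∀ᶠ y in 𝓝 x, F y = f y := by
  classical
  obtain ⟨χ, hχ1, hχ2, hχ3, hχ4⟩ := Pool.Agent.K7.H28.GS.exists_cut hM hU hMU
  obtain ⟨ψ, hψ1, hψ2, hψ3, hψ4⟩ := Pool.Agent.K7.H28.GS.exists_cut
    (V := V) (Z := tsupport χ) (U := univ) hχ2.isCompact isOpen_univ (subset_univ _)
  obtain ⟨F₀, hF₀⟩ : ∃ F₀ : V → W, F₀ = fun x => ψ x • f x := ⟨_, rfl⟩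
  obtain ⟨g₀, hg₀⟩ : ∃ g₀ : V → ℝ, g₀ = fun x => 1 - 2 * χ x := ⟨_, rfl⟩
  have hF₀s : ContDiff ℝ ∞ F₀ := by rw [hF₀]; exact hψ1.smul hf
  have hg₀s : ContDiff ℝ ∞ g₀ := by
    rw [hg₀]
    exact contDiff_const.sub (contDiff_const.mul hχ1)
  have hF₀c : HasCompactSupport F₀ := by rw [hF₀]; exact hψ2.smul_right
  have hF₀f : ∀ x ∈ tsupport χ, ∀ᶠ y in 𝓝 x, F₀ y = f y := by
    intro x hx
    filter_upwards [hψ4 x hx] with y hy
    rw [hF₀]
    simp only [hy, one_smul]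
  have hF₀f' : ∀ x ∈ tsupport χ, F₀ x = f x := fun x hx => (hF₀f x hx).self_of_nhds
  obtain ⟨C₁, hC₁⟩ := (hF₀s.of_le (by simp : (1 : WithTop ℕ∞) ≤ ∞)).lipschitzWith_of_hasCompactSupport
    hF₀c one_ne_zero
  obtain ⟨C₂, hC₂⟩ := (hχ1.of_le (by simp : (1 : WithTop ℕ∞) ≤ ∞)).lipschitzWith_of_hasCompactSupport
    hχ2 one_ne_zero
  have hχ1' : ∀ x ∈ M, χ x = 1 := fun x hx => (hχ4 x hx).self_of_nhds
  have hχt : ∀ x, χ x ≠ 0 → x ∈ tsupport χ := fun x hx => subset_tsupport χ hx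
  -- the lower bound
  have hlowA : ∃ a : ℝ, 0 < a ∧ ∀ x, |g₀ x| ≤ 1 / 2 → a ≤ ‖F₀ x‖ := by
    obtain ⟨A, hA⟩ : ∃ A : Set V, A = tsupport χ ∩ {x | |g₀ x| ≤ 1 / 2} := ⟨_, rfl⟩
    have hAc : IsCompact A := by
      rw [hA]
      exact hχ2.isCompact.inter_right (isClosed_le hg₀s.continuous.abs continuous_const)
    have hmem : ∀ x, |g₀ x| ≤ 1 / 2 → x ∈ A := by
      intro x hx
      rw [hA]
      refine ⟨hχt x fun h => ?_, hx⟩
      rw [hg₀] at hx
      simp only [h, mul_zero, sub_zero, abs_one] at hx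
      linarith
    rcases A.eq_empty_or_nonempty with he | hne
    · refine ⟨1, one_pos, fun x hx => ?_⟩
      have h1 := hmem x hx
      rw [he] at h1
      exact absurd h1 (notMem_empty x)
    · obtain ⟨x₀, hx₀, hmin⟩ := hAc.exists_isMinOn hne hF₀s.continuous.norm.continuousOn
      refine ⟨‖F₀ x₀‖, ?_, fun x hx => hmin (hmem x hx)⟩
      rw [hA] at hx₀
      rw [norm_pos_iff, hF₀f' x₀ hx₀.1]
      intro h
      have h1 := (h0 x₀ (hχ3 hx₀.1)).1 h
      have h2 := hx₀.2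
      rw [hg₀] at h2
      change |1 - 2 * χ x₀| ≤ 1 / 2 at h2
      rw [hχ1' x₀ h1] at h2
      norm_num at h2
  obtain ⟨a, ha, haF⟩ := hlowA
  have hMt : M ⊆ tsupport χ := fun x hx => hχt x (by rw [hχ1' x hx]; exact one_ne_zero)
  obtain ⟨R, hR⟩ := hχ2.isCompact.isBounded.subset_closedBall (0 : V)
  obtain ⟨B₁, hB₁⟩ := hF₀c.exists_bound_of_continuous hF₀s.continuous
  obtain ⟨B₂, hB₂⟩ := hχ2.exists_bound_of_continuous hχ1.continuous
  have hg₀t : ∀ x, g₀ x < 1 / 2 → x ∈ tsupport χ := by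
    intro x hx
    refine hχt x fun h => ?_
    rw [hg₀] at hx
    simp only [h, mul_zero, sub_zero] at hx
    linarith
  have hzero : ∀ x, g₀ x < 0 → F₀ x = 0 → x ∈ M := by
    intro x hgx hFx
    have h1 := hg₀t x (by linarith)
    rw [hF₀f' x h1] at hFx
    exact (h0 x (hχ3 h1)).1 hFx
  refine ⟨F₀, g₀, C₁ + 2 * C₂, max B₁ (1 + 2 * B₂), R, min a (1 / 2), hF₀s, hg₀s, by positivity,
    fun x y => ?_, fun x y => ?_, fun x => (hB₁ x).trans (le_max_left _ _), fun x => ?_,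
    lt_min ha (by norm_num), fun x hx => ?_, fun x hx => ?_, fun x hgx hFx => ?_, ?_,
    fun x hx => hF₀f x (hMt hx)⟩
  · have h1 := hC₁.dist_le_mul x y
    rw [dist_eq_norm, dist_eq_norm] at h1
    refine h1.trans (mul_le_mul_of_nonneg_right ?_ (norm_nonneg _))
    have : (0 : ℝ) ≤ C₂ := C₂.coe_nonneg
    linarith
  · have h1 := hC₂.dist_le_mul x y
    rw [dist_eq_norm, dist_eq_norm, Real.norm_eq_abs] at h1
    rw [hg₀]
    simp only
    have h3 : 1 - 2 * χ x - (1 - 2 * χ y) = -2 * (χ x - χ y) := by ring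
    rw [h3, abs_mul, show |(-2 : ℝ)| = 2 by norm_num]
    have : (0 : ℝ) ≤ C₁ := C₁.coe_nonneg
    have h4 := norm_nonneg (x - y)
    nlinarith
  · refine le_trans ?_ (le_max_right _ _)
    rw [hg₀]
    simp only
    have h1 := hB₂ x
    rw [Real.norm_eq_abs] at h1
    have h2 := abs_le.1 h1
    rw [abs_le]
    constructor <;> linarith
  · exact mem_closedBall_zero_iff.1 (hR (hg₀t x (hx.trans_le (min_le_right _ _))))
  · exact (min_le_left _ _).trans (haF x (hx.le.trans (min_le_right _ _)))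
  · have h1 := hzero x hgx hFx
    have h2 : F₀ =ᶠ[𝓝 x] f := hF₀f x (hMt h1)
    rw [h2.fderiv_eq]
    exact hreg x h1
  · ext x
    constructor
    · rintro ⟨h1, h2⟩
      exact hzero x h2 h1
    · intro hx
      refine ⟨?_, ?_⟩
      · rw [hF₀f' x (hMt hx)]
        exact (h0 x (hMU hx)).2 hx
      · rw [hg₀]
        change 1 - 2 * χ x < 0
        rw [hχ1' x hx]
        linarith

end Pool.Agent.K7.H28.TR
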